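import Mathlib

set_option autoImplicit false

namespace Pool.Agent.Lib.MP_fcccf2_gt.CL

open scoped RealInnerProductSpace

abbrev V (ι : Type) : Type := EuclideanSpace ℝ ι

variable {ι : Type} [Fintype ι] [DecidableEq ι]

/-- threshold -/
noncomputable def eta : ℝ := 1 / 10 ^ 10
/-- common size of the small errors -/
noncomputable def eps : ℝ := 1 / 10 ^ 4
/-- radius of the killed set -/
noncomputable def rr : ℝ := 17 / 25

/-- the part above the threshold -/
noncomputable def vv (u : V ι) : V ι := WithLp.toLp 2 fun i => max (u i - eta) 0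
/-- the part below the threshold -/
noncomputable def mm (u : V ι) : V ι := WithLp.toLp 2 fun i => min (u i) eta
/-- the killed part -/
noncomputable def PP (u : V ι) : V ι := min 1 (rr / ‖vv u‖) • vv u
/-- the surviving part -/
noncomputable def TT (u : V ι) : V ι := u - PP u
/-- the length of the surviving positive part -/
noncomputable def ss (u : V ι) : ℝ := ‖vv u‖ - ‖PP u‖
/-- the quantity that fixes the code length -/
noncomputable def sig (u : V ι) (t : ℝ) : ℝ := Real.sqrt (‖vv u‖ ^ 2 + t ^ 2)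
/-- Euclidean distance in `V ι × ℝ` -/
noncomputable def dd (u : V ι) (t : ℝ) (u' : V ι) (t' : ℝ) : ℝ :=
  Real.sqrt (‖u - u'‖ ^ 2 + (t - t') ^ 2)

/-- admissible code lengths `c` for the value `σ` -/
def Ramp (c σ : ℝ) : Prop :=
  (σ ≤ 0.48 ∧ c = 0) ∨ (0.48 < σ ∧ σ ≤ 0.72 ∧ c = 1.2 * σ - 0.159) ∨
    (0.72 ≤ σ ∧ 0.705 ≤ c ∧ c ≤ 0.7072)

/-- restriction to a finite set of coordinates -/
noncomputable def res (S : Finset ι) (u : V ι) : V ι :=
  WithLp.toLp 2 fun i => if i ∈ S then u i else 0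
/-- normalised indicator -/
noncomputable def ind (S : Finset ι) : V ι :=
  WithLp.toLp 2 fun i => if i ∈ S then 1 / Real.sqrt S.card else 0
/-- the block with label `b` -/
def blk (bl : ι → Bool) (b : Bool) : Finset ι := Finset.univ.filter fun i => bl i = b
/-- both block sums vanish -/
def InH (bl : ι → Bool) (u : V ι) : Prop := ∀ b, ∑ i ∈ blk bl b, u i = 0
/-- orthogonal projection to the vectors with vanishing block sums -/
noncomputable def Pr (bl : ι → Bool) (u : V ι) : V ι :=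
  WithLp.toLp 2 fun i => u i - (∑ j ∈ blk bl (bl i), u j) / (blk bl (bl i)).card
/-- the height of the partner of `w` -/
noncomputable def tau (bl : ι → Bool) (w : V ι) : ℝ :=
  0.15 * (‖res (blk bl true) (PP w)‖ - ‖res (blk bl false) (PP w)‖)
/-- radial shrinking by `eps` -/
noncomputable def shr (y : V ι) : V ι := (1 - min 1 (eps / ‖y‖)) • y
/-- the Lipschitz part on the polar cap with label `b` -/
noncomputable def capT (bl : ι → Bool) (b : Bool) (u : V ι) : V ι :=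
  res (blk bl b) (Pr bl (TT u)) + shr (res (blk bl (!b)) (Pr bl (TT u)))
/-- both blocks are large -/
def Big (bl : ι → Bool) : Prop := ∀ b, 10 ^ 44 ≤ (blk bl b).card

/-- The data of a correspondence of distortion at most `δ` between the unit ball of `H × ℝ`
and the unit ball of `H`. -/
structure Corr (bl : ι → Bool) (δ : ℝ) (f : V ι → ℝ → V ι) (g : V ι → V ι) (τ : V ι → ℝ) :
    Prop where
  fH : ∀ u t, InH bl u → ‖u‖ ^ 2 + t ^ 2 ≤ 1 → InH bl (f u t) ∧ ‖f u t‖ ≤ 1
  gH : ∀ w, InH bl w → ‖w‖ ≤ 1 → InH bl (g w) ∧ ‖g w‖ ^ 2 + τ w ^ 2 ≤ 1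
  ff : ∀ u t u' t', InH bl u → ‖u‖ ^ 2 + t ^ 2 ≤ 1 → InH bl u' → ‖u'‖ ^ 2 + t' ^ 2 ≤ 1 →
    |dd u t u' t' - ‖f u t - f u' t'‖| ≤ δ
  fg : ∀ u t w, InH bl u → ‖u‖ ^ 2 + t ^ 2 ≤ 1 → InH bl w → ‖w‖ ≤ 1 →
    |dd (g w) (τ w) u t - ‖w - f u t‖| ≤ δ
  gg : ∀ w w', InH bl w → ‖w‖ ≤ 1 → InH bl w' → ‖w'‖ ≤ 1 →
    |dd (g w) (τ w) (g w') (τ w') - ‖w - w'‖| ≤ δ

end Pool.Agent.Lib.MP_fcccf2_gt.CL
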