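import Mathlib
import Pool.Agent.Lib.MP_fcccf2_gt.CL.D

set_option autoImplicit false

namespace Pool.Agent.Lib.MP_fcccf2_gt.CL

open scoped RealInnerProductSpace

variable {ι : Type} [Fintype ι] [DecidableEq ι]

lemma hat1_eta : 0 < eta := by unfold eta; positivity

lemma hat1_rr : 0 < rr := by unfold rr; positivity

omit [DecidableEq ι] in
lemma hat1_inner (a b : V ι) : ⟪a, b⟫ = ∑ i, a i * b i := by
  simp [PiLp.inner_apply, mul_comm]

omit [DecidableEq ι] in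
lemma hat1_c (u : V ι) : 0 ≤ min 1 (rr / ‖vv u‖) :=
  le_min zero_le_one (div_nonneg hat1_rr.le (norm_nonneg _))

lemma vv_nonneg (u : V ι) (i : ι) : 0 ≤ vv u i := le_max_right _ _

lemma PP_nonneg (u : V ι) (i : ι) : 0 ≤ PP u i := mul_nonneg (hat1_c u) (vv_nonneg u i)

lemma mm_add_vv (u : V ι) : mm u + vv u = u := by
  ext i
  change min (u i) eta + max (u i - eta) 0 = u i
  rcases le_total (u i) eta with h | h
  · rw [min_eq_left h, max_eq_right (sub_nonpos.2 h), add_zero]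
  · rw [min_eq_right h, max_eq_left (sub_nonneg.2 h), add_sub_cancel]

lemma TT_add_PP (u : V ι) : TT u + PP u = u := sub_add_cancel _ _

lemma norm_PP (u : V ι) : ‖PP u‖ = min ‖vv u‖ rr := by
  rw [PP, norm_smul, Real.norm_of_nonneg (hat1_c u)]
  rcases (norm_nonneg (vv u)).eq_or_lt with h | h
  · rw [← h, mul_zero, min_eq_left hat1_rr.le]
  · rw [min_mul_of_nonneg _ _ h.le, one_mul, div_mul_cancel₀ _ h.ne']

lemma ss_nonneg (u : V ι) : 0 ≤ ss u := sub_nonneg.2 (norm_PP u ▸ min_le_left _ _)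

lemma norm_PP_of_ss_pos (u : V ι) (h : 0 < ss u) : ‖PP u‖ = rr := by
  rw [ss, norm_PP, sub_pos] at h
  rw [norm_PP, min_eq_right (min_lt_iff.1 h |>.resolve_left (lt_irrefl _)).le]

/-- `TT u = mm u + l • vv u`, `PP u = (1 - l) • vv u`, `l * ‖vv u‖ = ss u`. -/
lemma exists_lam (u : V ι) : ∃ l : ℝ, 0 ≤ l ∧ l ≤ 1 ∧ TT u = mm u + l • vv u ∧
    PP u = (1 - l) • vv u ∧ l * ‖vv u‖ = ss u := by
  refine ⟨1 - min 1 (rr / ‖vv u‖), sub_nonneg.2 (min_le_left _ _), sub_le_self _ (hat1_c u), ?_,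
    by rw [sub_sub_cancel, PP], ?_⟩
  · rw [sub_smul, one_smul, ← add_sub_assoc, mm_add_vv, TT, PP]
  · rw [ss, PP, norm_smul, Real.norm_of_nonneg (hat1_c u), sub_mul, one_mul]

lemma TT_of_small (u : V ι) (h : ‖vv u‖ ≤ rr) : TT u = mm u ∧ PP u = vv u := by
  have e : PP u = vv u := by
    rcases (norm_nonneg (vv u)).eq_or_lt with k | k
    · rw [PP, norm_eq_zero.1 k.symm, smul_zero]
    · rw [PP, min_eq_left ((one_le_div k).2 h), one_smul]
  exact ⟨by rw [TT, e, sub_eq_iff_eq_add, mm_add_vv], e⟩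

lemma hat1_mv (u : V ι) : ⟪mm u, vv u⟫ = eta * ∑ i, vv u i := by
  rw [hat1_inner, Finset.mul_sum]
  refine Finset.sum_congr rfl fun i _ => ?_
  change min (u i) eta * max (u i - eta) 0 = eta * max (u i - eta) 0
  rcases le_total (u i) eta with h | h
  · rw [max_eq_right (sub_nonpos.2 h), mul_zero, mul_zero]
  · rw [min_eq_right h]

lemma norm_vv_sq_le (u : V ι) : ‖mm u‖ ^ 2 + ‖vv u‖ ^ 2 + 2 * eta * ‖vv u‖ ≤ ‖u‖ ^ 2 := by
  have h1 := norm_add_sq_real (mm u) (vv u)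
  have h2 : ‖vv u‖ ≤ ∑ i, vv u i := by
    refine (sq_le_sq₀ (norm_nonneg _) (Finset.sum_nonneg fun i _ => vv_nonneg u i)).1 ?_
    rw [EuclideanSpace.real_norm_sq_eq]
    exact Finset.sum_sq_le_sq_sum_of_nonneg fun i _ => vv_nonneg u i
  rw [mm_add_vv, hat1_mv] at h1
  nlinarith [mul_le_mul_of_nonneg_left h2 hat1_eta.le]

lemma norm_vv_le (u : V ι) : ‖vv u‖ ≤ ‖u‖ := by
  refine (sq_le_sq₀ (norm_nonneg _) (norm_nonneg _)).1 ?_
  nlinarith [norm_vv_sq_le u, sq_nonneg ‖mm u‖, mul_nonneg hat1_eta.le (norm_nonneg (vv u))]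

lemma hat1_dm (u u' : V ι) : 0 ≤ ⟪mm u - mm u', PP u⟫ := by
  rw [PP, real_inner_smul_right, hat1_inner]
  refine mul_nonneg (hat1_c u) (Finset.sum_nonneg fun i _ => ?_)
  change 0 ≤ (min (u i) eta - min (u' i) eta) * max (u i - eta) 0
  rcases le_total (u i) eta with h | h
  · rw [max_eq_right (sub_nonpos.2 h), mul_zero]
  · rw [min_eq_right h]
    exact mul_nonneg (sub_nonneg.2 (min_le_right _ _)) (le_max_right _ _)

omit [DecidableEq ι] in
lemma hat1_vP {u : V ι} {l : ℝ} (h1 : l ≤ 1) (h : PP u = (1 - l) • vv u)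
    (hs : l * ‖vv u‖ = ss u) : ⟪l • vv u, PP u⟫ = ‖PP u‖ * ss u := by
  rw [h, real_inner_smul_left, real_inner_smul_right, real_inner_self_eq_norm_sq, norm_smul,
    Real.norm_of_nonneg (sub_nonneg.2 h1), ← hs]
  ring

lemma hat1_key (u u' : V ι) {l : ℝ} (h0 : 0 ≤ l) (h1 : l ≤ 1) (h : PP u = (1 - l) • vv u)
    (hs : l * ‖vv u‖ = ss u) : 0 ≤ ⟪l • vv u, PP u - PP u'⟫ := by
  have a := real_inner_le_norm (l • vv u) (PP u')
  have b : ‖PP u'‖ ≤ rr := norm_PP u' ▸ min_le_right _ _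
  rw [norm_smul, Real.norm_of_nonneg h0, hs] at a
  rw [inner_sub_right, hat1_vP h1 h hs, sub_nonneg]
  refine a.trans ?_
  rcases (ss_nonneg u).eq_or_lt with k | k
  · rw [← k, zero_mul, mul_zero]
  · rw [norm_PP_of_ss_pos u k, mul_comm]
    exact mul_le_mul_of_nonneg_right b k.le

/-- firm nonexpansiveness -/
lemma firm (u u' : V ι) : 0 ≤ ⟪TT u - TT u', PP u - PP u'⟫ := by
  obtain ⟨l, a1, a2, a3, a4, a5⟩ := exists_lam u
  obtain ⟨l', b1, b2, b3, b4, b5⟩ := exists_lam u'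
  have c1 := hat1_dm u u'
  have c2 := hat1_dm u' u
  have c3 := hat1_key u u' a1 a2 a4 a5
  have c4 := hat1_key u' u b1 b2 b4 b5
  rw [a3, b3]
  simp only [inner_sub_left, inner_sub_right, inner_add_left] at *
  linarith

lemma pyth (u u' : V ι) : ‖TT u - TT u'‖ ^ 2 + ‖PP u - PP u'‖ ^ 2 ≤ ‖u - u'‖ ^ 2 := by
  have h := norm_add_sq_real (TT u - TT u') (PP u - PP u')
  rw [sub_add_sub_comm, TT_add_PP, TT_add_PP] at h
  linarith [firm u u']

lemma TT_lip (u u' : V ι) : ‖TT u - TT u'‖ ≤ ‖u - u'‖ := by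
  refine (sq_le_sq₀ (norm_nonneg _) (norm_nonneg _)).1 ?_
  linarith [pyth u u', sq_nonneg ‖PP u - PP u'‖]

lemma budget (u : V ι) : ‖TT u‖ ^ 2 + ‖PP u‖ ^ 2 + 2 * ‖PP u‖ * ss u ≤ ‖u‖ ^ 2 := by
  obtain ⟨l, -, a2, a3, a4, a5⟩ := exists_lam u
  have h := norm_add_sq_real (TT u) (PP u)
  have k : 0 ≤ ⟪mm u, PP u⟫ := by
    rw [PP, real_inner_smul_right, hat1_mv]
    exact mul_nonneg (hat1_c u) (mul_nonneg hat1_eta.le
      (Finset.sum_nonneg fun i _ => vv_nonneg u i))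
  have e : ⟪TT u, PP u⟫ = ⟪mm u, PP u⟫ + ‖PP u‖ * ss u := by
    rw [a3, inner_add_left, hat1_vP a2 a4 a5]
  rw [TT_add_PP, e] at h
  linarith

lemma inner_nonneg_of_nonneg (a b : V ι) (ha : ∀ i, 0 ≤ a i) (hb : ∀ i, 0 ≤ b i) :
    0 ≤ ⟪a, b⟫ := by
  rw [hat1_inner]
  exact Finset.sum_nonneg fun i _ => mul_nonneg (ha i) (hb i)

lemma norm_sub_sq_le_of_nonneg (a b : V ι) (ha : ∀ i, 0 ≤ a i) (hb : ∀ i, 0 ≤ b i) :
    ‖a - b‖ ^ 2 ≤ ‖a‖ ^ 2 + ‖b‖ ^ 2 := by
  linarith [norm_sub_sq_real a b, inner_nonneg_of_nonneg a b ha hb]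

lemma inner_TT_le (u e : V ι) (he : ∀ i, 0 ≤ e i) (h1 : ‖e‖ ≤ 1) :
    ⟪TT u, e⟫ ≤ ss u + eta * ∑ i, e i := by
  obtain ⟨l, a1, -, a3, -, a5⟩ := exists_lam u
  have a := real_inner_le_norm (l • vv u) e
  have b : ⟪mm u, e⟫ ≤ eta * ∑ i, e i := by
    rw [hat1_inner, Finset.mul_sum]
    exact Finset.sum_le_sum fun i _ => mul_le_mul_of_nonneg_right (min_le_right _ _) (he i)
  rw [norm_smul, Real.norm_of_nonneg a1, a5] at a
  rw [a3, inner_add_left]
  linarith [mul_le_of_le_one_right (ss_nonneg u) h1]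

lemma sum_vv_le (u : V ι) : ∑ i, vv u i ≤ ‖u‖ ^ 2 / (4 * eta) := by
  have := hat1_eta
  rw [EuclideanSpace.real_norm_sq_eq, Finset.sum_div]
  refine Finset.sum_le_sum fun i _ => max_le ?_ (by positivity)
  rw [le_div_iff₀ (by positivity)]
  nlinarith [sq_nonneg (u i - 2 * eta)]

lemma sum_PP_le (u : V ι) : ∑ i, PP u i ≤ ‖u‖ ^ 2 / (4 * eta) :=
  (Finset.sum_le_sum fun i _ => mul_le_of_le_one_left (vv_nonneg u i) (min_le_left _ _)).trans
    (sum_vv_le u)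

lemma ind_nonneg (S : Finset ι) (i : ι) : 0 ≤ ind S i := by
  simp only [ind]
  split_ifs
  · positivity
  · exact le_rfl

lemma hat2_inner (a b : V ι) : ⟪a, b⟫ = ∑ i, a i * b i := by
  simp [PiLp.inner_apply, mul_comm]

lemma norm_ind (S : Finset ι) (h : S.Nonempty) : ‖ind S‖ = 1 := by
  have h0 : (0 : ℝ) < S.card := by exact_mod_cast h.card_pos
  have h1 : ‖ind S‖ ^ 2 = 1 := by
    rw [EuclideanSpace.real_norm_sq_eq]
    simp only [ind, ite_pow, div_pow, one_pow, Real.sq_sqrt h0.le, ne_eq, OfNat.ofNat_ne_zero,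
      not_false_eq_true, zero_pow, Finset.sum_ite_mem, Finset.univ_inter, Finset.sum_const,
      nsmul_eq_mul]
    field_simp
  exact (pow_eq_one_iff_of_nonneg (norm_nonneg _) two_ne_zero).1 h1

lemma sum_ind (S : Finset ι) : ∑ i, ind S i = Real.sqrt S.card := by
  simp only [ind, Finset.sum_ite_mem, Finset.univ_inter, Finset.sum_const, nsmul_eq_mul]
  rw [mul_one_div, Real.div_sqrt]

lemma abs_inner_ind_le (S : Finset ι) (y : V ι) : |⟪y, ind S⟫| ≤ ‖res S y‖ := by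
  have h1 : ⟪y, ind S⟫ = ⟪res S y, ind S⟫ := by
    rw [hat2_inner, hat2_inner]
    refine Finset.sum_congr rfl fun i _ => ?_
    simp only [ind, res]
    split_ifs <;> simp
  rcases S.eq_empty_or_nonempty with rfl | h
  · rw [hat2_inner]
    simp [ind]
  · rw [h1]
    refine (abs_real_inner_le_norm _ _).trans ?_
    rw [norm_ind S h, mul_one]

lemma inner_ind_disjoint (S S' : Finset ι) (h : Disjoint S S') : ⟪ind S, ind S'⟫ = 0 := by
  rw [hat2_inner]
  refine Finset.sum_eq_zero fun i _ => ?_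
  simp only [ind]
  split_ifs with h1 h2
  · exact absurd h2 (Finset.disjoint_left.1 h h1)
  all_goals simp

lemma inner_ind_single_le (S : Finset ι) (i : ι) (h : S.card = 10 ^ 8) :
    ⟪ind {i}, ind S⟫ ≤ eps := by
  have h1 : ⟪ind {i}, ind S⟫ = ind S i := by
    rw [hat2_inner, Finset.sum_eq_single i]
    · simp [ind]
    · intro j _ hj
      simp [ind, hj]
    · simp
  have h2 : Real.sqrt S.card = 10 ^ 4 := by
    rw [h, show ((10 ^ 8 : ℕ) : ℝ) = (10 ^ 4) ^ 2 by norm_num, Real.sqrt_sq (by norm_num)]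
  rw [h1]
  simp only [ind, h2, eps]
  split_ifs
  · exact le_rfl
  · positivity

lemma norm_sq_blocks (bl : ι → Bool) (y : V ι) :
    ‖res (blk bl true) y‖ ^ 2 + ‖res (blk bl false) y‖ ^ 2 = ‖y‖ ^ 2 := by
  simp only [EuclideanSpace.real_norm_sq_eq, ← Finset.sum_add_distrib]
  refine Finset.sum_congr rfl fun i _ => ?_
  cases h : bl i <;> simp [res, blk, h]

lemma res_add_res (bl : ι → Bool) (b : Bool) (y : V ι) :
    res (blk bl b) y + res (blk bl (!b)) y = y := by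
  ext i
  cases b <;> cases h : bl i <;> simp [res, blk, h]

lemma res_sub (S : Finset ι) (y y' : V ι) : res S (y - y') = res S y - res S y' := by
  ext i
  by_cases h : i ∈ S <;> simp [res, h]

lemma norm_res_le (S : Finset ι) (y : V ι) : ‖res S y‖ ≤ ‖y‖ := by
  refine (sq_le_sq₀ (norm_nonneg _) (norm_nonneg _)).1 ?_
  rw [EuclideanSpace.real_norm_sq_eq, EuclideanSpace.real_norm_sq_eq]
  refine Finset.sum_le_sum fun i _ => ?_
  by_cases h : i ∈ S <;> simp [res, h, sq_nonneg]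

end Pool.Agent.Lib.MP_fcccf2_gt.CL
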