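import Mathlib
import Pool.Agent.Lib.MP_fcccf2_gt.CL.Hat

set_option autoImplicit false

namespace Pool.Agent.Lib.MP_fcccf2_gt.CL

open scoped RealInnerProductSpace

variable {ι : Type} [Fintype ι] [DecidableEq ι]

lemma codes_sets (bl : ι → Bool) (L M K : ℕ) (h : ∀ b, L * (M * K) ≤ (blk bl b).card) :
    ∃ J : Bool → Fin L → Fin M → Finset ι, (∀ b l j, J b l j ⊆ blk bl b ∧ (J b l j).card = K) ∧
      ∀ b l j b' l' j', (b = b' ∧ l = l' ∧ j = j') ∨ Disjoint (J b l j) (J b' l' j') := by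
  have e : ∀ b, Fin L × Fin M × Fin K ↪ blk bl b := fun b =>
    (Function.Embedding.nonempty_of_card_le (by simpa using h b)).some
  refine ⟨fun b l j => Finset.univ.image fun k => (e b (l, j, k)).1, fun b l j => ⟨fun i hi => ?_, ?_⟩,
    fun b l j b' l' j' => or_iff_not_imp_right.2 fun hd => ?_⟩
  · obtain ⟨k, -, rfl⟩ := Finset.mem_image.1 hi
    exact (e b (l, j, k)).2
  · rw [Finset.card_image_of_injective _ fun k k' hk => ?_, Finset.card_univ, Fintype.card_fin]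
    simpa using (e b).injective (Subtype.ext hk)
  · obtain ⟨i, h1, h2⟩ := Finset.not_disjoint_iff.1 hd
    obtain ⟨k, -, h3⟩ := Finset.mem_image.1 h1
    obtain ⟨k', -, h4⟩ := Finset.mem_image.1 h2
    obtain rfl : b = b' := (Finset.mem_filter.1 (h3 ▸ (e b (l, j, k)).2)).2.symm.trans
      (Finset.mem_filter.1 (h4 ▸ (e b' (l', j', k')).2)).2
    have := (e b).injective (Subtype.ext (h3.trans h4.symm))
    simp only [Prod.mk.injEq] at this
    exact ⟨rfl, this.1, this.2.1⟩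

lemma codes_norm (S : Finset ι) (y : V ι) : ‖res S y‖ ^ 2 = ∑ i ∈ S, y i ^ 2 := by
  simp [EuclideanSpace.real_norm_sq_eq, res]

lemma codes_small {M : ℕ} (hM : 0 < M) (J : Fin M → Finset ι)
    (hd : ∀ j j', j = j' ∨ Disjoint (J j) (J j')) (y : V ι) (hy : ‖y‖ ≤ 1) :
    ∃ j, ‖res (J j) y‖ ^ 2 ≤ 1 / M := by
  have h0 : (M : ℝ) ≠ 0 := Nat.cast_ne_zero.2 hM.ne'
  have h1 : ∑ j, ‖res (J j) y‖ ^ 2 ≤ ∑ _j : Fin M, (1 : ℝ) / M := by
    simp only [codes_norm]
    rw [← Finset.sum_biUnion fun j _ j' _ hne => (hd j j').resolve_left hne, Finset.sum_const,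
      Finset.card_univ, Fintype.card_fin, nsmul_eq_mul, mul_one_div_cancel h0]
    refine (Finset.sum_le_univ_sum_of_nonneg fun i => sq_nonneg _).trans ?_
    rw [← EuclideanSpace.real_norm_sq_eq]
    exact pow_le_one₀ (norm_nonneg y) hy
  obtain ⟨j, -, h⟩ := Finset.exists_le_of_sum_le ⟨⟨0, hM⟩, Finset.mem_univ _⟩ h1
  exact ⟨j, h⟩

lemma codes_gen (bl : ι → Bool) (L M K : ℕ) (hM : 0 < M)
    (h : ∀ b, L * (M * K) ≤ (blk bl b).card) :
    ∃ I : Bool → ℕ → V ι → Finset ι,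
      (∀ b l y, l < L → ‖y‖ ≤ 1 →
        I b l y ⊆ blk bl b ∧ (I b l y).card = K ∧ ‖res (I b l y) y‖ ^ 2 ≤ 1 / M) ∧
      (∀ b l y b' l' y', l < L → l' < L →
        (I b l y = I b' l' y' ∧ b = b' ∧ l = l') ∨ Disjoint (I b l y) (I b' l' y')) := by
  obtain ⟨J, h1, h2⟩ := codes_sets bl L M K h
  have h3 : ∀ b l (y : V ι), ∃ j, ‖y‖ ≤ 1 → ‖res (J b l j) y‖ ^ 2 ≤ 1 / M := fun b l y => by
    by_cases hy : ‖y‖ ≤ 1
    · exact (codes_small hM (J b l) (fun j j' => (h2 b l j b l j').imp_left fun h => h.2.2) y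
        hy).imp fun j hj _ => hj
    · exact ⟨⟨0, hM⟩, fun h => (hy h).elim⟩
  choose c hc using h3
  refine ⟨fun b l y => if h : l < L then J b ⟨l, h⟩ (c b ⟨l, h⟩ y) else ∅,
    fun b l y hl hy => ?_, fun b l y b' l' y' hl hl' => ?_⟩
  · simp only [dif_pos hl]
    exact ⟨(h1 _ _ _).1, (h1 _ _ _).2, hc _ _ _ hy⟩
  · simp only [dif_pos hl, dif_pos hl']
    refine (h2 _ _ _ _ _ _).imp_left fun ⟨a1, a2, a3⟩ => ⟨?_, a1, congrArg Fin.val a2⟩
    rw [a3, a1, a2]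

/-- A family of flat code sets: for each block `b` and band `l < 100` a choice of a set of
`10 ^ 8` coordinates of the block on which the given vector is small; two chosen sets are
disjoint unless they are equal and belong to the same block and band. -/
theorem exists_codes (bl : ι → Bool) (hB : Big bl) :
    ∃ I : Bool → ℕ → V ι → Finset ι,
      (∀ b l y, l < 100 → ‖y‖ ≤ 1 →
        I b l y ⊆ blk bl b ∧ (I b l y).card = 10 ^ 8 ∧ ‖res (I b l y) y‖ ≤ eps) ∧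
      (∀ b l y b' l' y', l < 100 → l' < 100 → ‖y‖ ≤ 1 → ‖y'‖ ≤ 1 →
        (I b l y = I b' l' y' ∧ b = b' ∧ l = l') ∨ Disjoint (I b l y) (I b' l' y')) := by
  obtain ⟨I, h1, h2⟩ := codes_gen bl 100 (10 ^ 8) (10 ^ 8) (by norm_num)
    fun b => le_trans (by norm_num) (hB b)
  refine ⟨I, fun b l y hl hy => ⟨(h1 b l y hl hy).1, (h1 b l y hl hy).2.1, ?_⟩,
    fun b l y b' l' y' hl hl' _ _ => h2 b l y b' l' y' hl hl'⟩
  refine le_of_sq_le_sq ((h1 b l y hl hy).2.2.trans_eq ?_) (by unfold eps; positivity)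
  unfold eps
  norm_num

end Pool.Agent.Lib.MP_fcccf2_gt.CL
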