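import Mathlib

set_option autoImplicit false

/-! Inequalities in an abstract inner product space, used for the cross pairs and the polar pairs
of the correspondence between balls of consecutive dimensions. -/

namespace Pool.Agent.Lib.MP_fcccf2_gt.CL

open scoped RealInnerProductSpace

lemma le_of_sq {a b : ℝ} (hb : 0 ≤ b) (h : a ^ 2 ≤ b ^ 2) : a ≤ b :=
  (abs_le_of_sq_le_sq' h hb).2

lemma cs2 {a b x y G R : ℝ} (hG : 0 ≤ G) (hR : 0 ≤ R) (h1 : a ^ 2 + b ^ 2 ≤ G ^ 2)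
    (h2 : x ^ 2 + y ^ 2 ≤ R ^ 2) : a * x + b * y ≤ G * R := by
  refine le_of_sq (by positivity) ?_
  have h3 : (a ^ 2 + b ^ 2) * (x ^ 2 + y ^ 2) ≤ G ^ 2 * R ^ 2 :=
    mul_le_mul h1 h2 (by positivity) (by positivity)
  nlinarith [sq_nonneg (a * y - b * x)]

lemma norm2_sub_ge {a b x y R : ℝ} (hR : 0 ≤ R) (h : x ^ 2 + y ^ 2 ≤ R ^ 2) :
    √(a ^ 2 + b ^ 2) - R ≤ √((a - x) ^ 2 + (b - y) ^ 2) := by
  set G := √((a - x) ^ 2 + (b - y) ^ 2) with hG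
  have hG0 : 0 ≤ G := Real.sqrt_nonneg _
  have hG2 : G ^ 2 = (a - x) ^ 2 + (b - y) ^ 2 := Real.sq_sqrt (by positivity)
  rw [sub_le_iff_le_add]
  refine Real.sqrt_le_iff.2 ⟨by positivity, ?_⟩
  have h1 : (a - x) * x + (b - y) * y ≤ G * R := cs2 hG0 hR hG2.ge h
  nlinarith

lemma ufg_scalar {Y D G ω σ c s' : ℝ} (hD : G ≤ D) (hG0 : 0 ≤ G) (hG : σ - 336 / 1000 ≤ G)
    (hY : Y ^ 2 ≤ D ^ 2 + s' ^ 2 - G ^ 2) (hs0 : 0 ≤ s') (hs : s' ≤ 32 / 100)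
    (hω : ω ^ 2 ≤ (68 / 100) ^ 2 + c ^ 2) (hσ : 48 / 100 ≤ σ) (hc0 : 0 ≤ c) (hc1 : c ≤ 71 / 100)
    (hc : c ≤ 12 / 10 * σ - 15 / 100) : Y + ω ≤ D + 99 / 100 := by
  rcases le_total s' G with h | h
  · have h1 : Y ≤ D := le_of_sq (by linarith) (by nlinarith)
    have h2 : ω ≤ 99 / 100 := le_of_sq (by norm_num) (by nlinarith)
    linarith
  · have h1 : Y ≤ D + (s' - G) := le_of_sq (by linarith) (by nlinarith)
    have h2 : ω ≤ 334 / 1000 + σ := le_of_sq (by linarith) (by nlinarith)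
    linarith

variable {W : Type*} [NormedAddCommGroup W] [InnerProductSpace ℝ W]

lemma norm_sq_three (a b c : W) (x y : ℝ) : ‖a + x • b - y • c‖ ^ 2 =
    ‖a‖ ^ 2 + 2 * x * ⟪a, b⟫ - 2 * y * ⟪a, c⟫ + (x * ‖b‖) ^ 2 + (y * ‖c‖) ^ 2
      - 2 * x * y * ⟪b, c⟫ := by
  rw [← real_inner_self_eq_norm_sq, mul_pow, mul_pow, ← real_inner_self_eq_norm_sq,
    ← real_inner_self_eq_norm_sq, ← real_inner_self_eq_norm_sq]
  simp only [inner_add_left, inner_add_right, inner_sub_left, inner_sub_right,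
    real_inner_smul_left, real_inner_smul_right, real_inner_comm a b,
    real_inner_comm a c, real_inner_comm b c]
  ring

/-- Upper cross inequality when the code is switched on. Here `dm = m w - m u`, `v` and `v'` are
the parts above the threshold of `u` and `w`. -/
theorem ufg_core (dm v v' k : W) (l l' c t τ : ℝ) (hk : ‖k‖ = 1)
    (h1 : 0 ≤ ⟪dm, v'⟫) (h2 : ⟪dm, v⟫ ≤ 0) (h4 : 0 ≤ ⟪v', k⟫) (h7 : ‖v'‖ ≤ 1)
    (hl1 : l ≤ 1) (hl : l * ‖v‖ = max (‖v‖ - 68 / 100) 0)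
    (hl0' : 0 ≤ l') (hl1' : l' ≤ 1) (hl' : l' * ‖v'‖ = max (‖v'‖ - 68 / 100) 0)
    (hσ : 48 / 100 ≤ √(‖v‖ ^ 2 + t ^ 2)) (hc0 : 0 ≤ c) (hc1 : c ≤ 71 / 100)
    (hc : c ≤ 12 / 10 * √(‖v‖ ^ 2 + t ^ 2) - 15 / 100) (hτ : |τ| ≤ 102 / 1000) :
    ‖dm + v' - l • v - c • k‖ ≤ √(‖dm + l' • v' - v‖ ^ 2 + (t - τ) ^ 2) + 99 / 100 := by
  have hB : ⟪v', v⟫ ≤ ‖v'‖ * ‖v‖ := real_inner_le_norm _ _
  have hρ0 := norm_nonneg v
  have hρ0' := norm_nonneg v'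
  have eY := norm_sq_three dm v' v l' l
  have eD := norm_sq_three dm v' v l' 1
  rw [one_smul] at eD
  have hs'0 : 0 ≤ l' * ‖v'‖ := by positivity
  have hs'1 : l' * ‖v'‖ ≤ 32 / 100 := by rw [hl']; exact max_le (by linarith) (by norm_num)
  have hπ' : (1 - l') * ‖v'‖ ≤ 68 / 100 := by
    have := le_max_left (‖v'‖ - 68 / 100) 0
    rw [← hl'] at this
    linarith
  have hπ0' : 0 ≤ (1 - l') * ‖v'‖ := mul_nonneg (by linarith) hρ0'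
  have hω : ‖(1 - l') • v' - c • k‖ ^ 2 ≤ (68 / 100) ^ 2 + c ^ 2 := by
    rw [norm_sub_sq_real, norm_smul, norm_smul, real_inner_smul_left, real_inner_smul_right,
      hk, Real.norm_of_nonneg hc0, Real.norm_of_nonneg (by linarith : (0 : ℝ) ≤ 1 - l'), mul_one]
    have h9 : 0 ≤ (1 - l') * (c * ⟪v', k⟫) := mul_nonneg (by linarith) (mul_nonneg hc0 h4)
    have h10 := pow_le_pow_left₀ hπ0' hπ' 2
    linarith
  have eW : dm + v' - l • v - c • k = (dm + l' • v' - l • v) + ((1 - l') • v' - c • k) := by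
    module
  rw [eW]
  refine (norm_add_le _ _).trans ?_
  have hτ2 : τ ^ 2 ≤ (102 / 1000) ^ 2 := by
    rw [← sq_abs]; exact pow_le_pow_left₀ (abs_nonneg _) hτ 2
  have hs'2 := pow_le_pow_left₀ hs'0 hs'1 2
  have hGσ : √(‖v‖ ^ 2 + t ^ 2) - 336 / 1000 ≤ √((‖v‖ - l' * ‖v'‖) ^ 2 + (t - τ) ^ 2) :=
    norm2_sub_ge (by norm_num) (by linarith)
  have hlB : l' * ⟪v', v⟫ ≤ l' * (‖v'‖ * ‖v‖) := mul_le_mul_of_nonneg_left hB hl0'
  have hA' : 0 ≤ l' * ⟪dm, v'⟫ := mul_nonneg hl0' h1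
  have hGD : √((‖v‖ - l' * ‖v'‖) ^ 2 + (t - τ) ^ 2) ≤
      √(‖dm + l' • v' - v‖ ^ 2 + (t - τ) ^ 2) := by
    refine Real.sqrt_le_sqrt ?_
    rw [eD]
    nlinarith [sq_nonneg ‖dm‖]
  have hD2 : √(‖dm + l' • v' - v‖ ^ 2 + (t - τ) ^ 2) ^ 2 =
      ‖dm + l' • v' - v‖ ^ 2 + (t - τ) ^ 2 := Real.sq_sqrt (by positivity)
  have hG2 : √((‖v‖ - l' * ‖v'‖) ^ 2 + (t - τ) ^ 2) ^ 2 =
      (‖v‖ - l' * ‖v'‖) ^ 2 + (t - τ) ^ 2 := Real.sq_sqrt (by positivity)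
  have h11 : (1 - l) * (l' * ⟪v', v⟫) ≤ (1 - l) * (l' * (‖v'‖ * ‖v‖)) :=
    mul_le_mul_of_nonneg_left hlB (by linarith)
  have h12 : (1 - l) * ⟪dm, v⟫ ≤ 0 := mul_nonpos_of_nonneg_of_nonpos (by linarith) h2
  have hYD : ‖dm + l' • v' - l • v‖ ^ 2 ≤ ‖dm + l' • v' - v‖ ^ 2 + (l * ‖v‖) ^ 2 - ‖v‖ ^ 2
      + 2 * (l' * ‖v'‖) * (‖v‖ - l * ‖v‖) := by
    rw [eY, eD]
    nlinarith
  rcases le_total (‖v‖ - 68 / 100) 0 with h | h
  · rw [max_eq_right h] at hl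
    refine ufg_scalar hGD (Real.sqrt_nonneg _) hGσ ?_ hs'0 hs'1 hω hσ hc0 hc1 hc
    rw [hD2, hG2]
    rw [hl] at hYD
    nlinarith
  · rw [max_eq_left h] at hl
    have h13 : ‖dm + l' • v' - l • v‖ ≤ √(‖dm + l' • v' - v‖ ^ 2 + (t - τ) ^ 2) := by
      refine Real.le_sqrt_of_sq_le ?_
      rw [hl] at hYD
      nlinarith [sq_nonneg (t - τ)]
    have h14 : ‖(1 - l') • v' - c • k‖ ≤ 99 / 100 := le_of_sq (by norm_num) (by nlinarith)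
    linarith

lemma lfg_scalar {ρ s c a lw t τ X : ℝ} (hρ : 0 ≤ ρ) (hs : s = max (ρ - 68 / 100) 0)
    (ha0 : 0 ≤ a) (ha1 : s ^ 2 + c ^ 2 ≤ a ^ 2) (ha2 : a ^ 2 ≤ s ^ 2 + c ^ 2 + 2 / 1000)
    (hl0 : 0 ≤ lw) (hl1 : lw ≤ 1) (hl : lw * a = max (a - 68 / 100) 0)
    (hx : ρ ^ 2 + t ^ 2 ≤ 1) (ht : 0 ≤ t) (hc0 : 0 ≤ c) (hc1 : c ≤ 71 / 100) (hcs : s ≤ c)
    (hc : 96 / 100 ≤ ρ ^ 2 + t ^ 2 → 705 / 1000 ≤ c)
    (hτ0 : 15 / 100 * ((1 - lw) * (c - s)) ≤ τ) (hτ1 : τ ≤ 102 / 1000)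
    (hX : X ≤ ρ ^ 2 - 2 * lw * (s * ρ) + (lw * a) ^ 2) :
    X + (t - τ) ^ 2 ≤ 985 / 1000 := by
  have ht2 := sq_nonneg t
  have hρ1 : ρ ≤ 1 := le_of_sq zero_le_one (by linarith)
  have hs0 : 0 ≤ s := hs ▸ le_max_right _ _
  have hs1 : s ≤ 32 / 100 := hs ▸ max_le (by linarith) (by norm_num)
  have hs1' := pow_le_pow_left₀ hs0 hs1 2
  have hc1' := pow_le_pow_left₀ hc0 hc1 2
  have ha3 : a ≤ 781 / 1000 := le_of_sq (by norm_num) (by linarith)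
  have hsw0 : 0 ≤ lw * a := by positivity
  have hsw : lw * a ≤ 101 / 1000 := hl ▸ max_le (by linarith) (by norm_num)
  have hsw2 := pow_le_pow_left₀ hsw0 hsw 2
  have hτ2 : 0 ≤ τ := le_trans (by
    have : 0 ≤ (1 - lw) * (c - s) := mul_nonneg (by linarith) (by linarith)
    linarith) hτ0
  have hτ3 := pow_le_pow_left₀ hτ2 hτ1 2
  have g1 : 0 ≤ lw * (s * ρ) := by positivity
  have g2 : 0 ≤ t * τ := by positivity
  have e : (t - τ) ^ 2 = t ^ 2 - 2 * (t * τ) + τ ^ 2 := by ring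
  have e2 : 2 * lw * (s * ρ) = 2 * (lw * (s * ρ)) := by ring
  rw [e]
  rw [e2] at hX
  rcases le_total (ρ ^ 2 + t ^ 2) (96 / 100) with h | h
  · linarith
  have hc2 := hc h
  have hc2' := pow_le_pow_left₀ (by norm_num) hc2 2
  have ha4 : 705 / 1000 ≤ a := le_of_sq ha0 (by linarith [sq_nonneg s])
  rw [max_eq_left (by linarith)] at hl
  rcases le_total t (35 / 100) with h2 | h2
  · have h2' := pow_le_pow_left₀ ht h2 2
    have hρ2 : 915 / 1000 ≤ ρ := le_of_sq hρ (by linarith)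
    have hs2 : 235 / 1000 ≤ s := hs ▸ le_max_of_le_left (by linarith)
    have hs2' := pow_le_pow_left₀ (by norm_num) hs2 2
    have ha5 : 743 / 1000 ≤ a := le_of_sq ha0 (by linarith)
    have hl2 : 84 / 1000 ≤ lw := by
      by_contra hh
      have := mul_le_mul_of_nonneg_right (not_le.1 hh).le ha0
      linarith
    have h3 : 235 / 1000 * (915 / 1000) ≤ s * ρ := mul_le_mul hs2 hρ2 (by norm_num) hs0
    have h4 : 84 / 1000 * (235 / 1000 * (915 / 1000)) ≤ lw * (s * ρ) :=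
      mul_le_mul hl2 h3 (by norm_num) hl0
    linarith
  · have h2' := pow_le_pow_left₀ (by norm_num) h2 2
    have hρ2 : ρ ≤ 937 / 1000 := le_of_sq (by norm_num) (by linarith)
    have hs2 : s ≤ 257 / 1000 := hs ▸ max_le (by linarith) (by norm_num)
    have hl2 : lw ≤ 13 / 100 := by
      by_contra hh
      have := mul_le_mul_of_nonneg_right (not_le.1 hh).le ha0
      linarith
    have h3 : 87 / 100 * (448 / 1000) ≤ (1 - lw) * (c - s) :=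
      mul_le_mul (by linarith) (by linarith) (by norm_num) (by linarith)
    have h4 : 35 / 100 * (58 / 1000) ≤ t * τ := mul_le_mul h2 (by linarith) (by norm_num) ht
    linarith

/-- The point `x` is close to `g (f x)`. -/
theorem lfg_core (v k : W) (l lw c t τ : ℝ) (hk : ‖k‖ = 1) (h1 : 0 ≤ ⟪v, k⟫)
    (h2 : l * ⟪v, k⟫ ≤ 1 / 1000) (hl0 : 0 ≤ l) (hl : l * ‖v‖ = max (‖v‖ - 68 / 100) 0)
    (hw0 : 0 ≤ lw) (hw1 : lw ≤ 1)
    (hw : lw * ‖l • v + c • k‖ = max (‖l • v + c • k‖ - 68 / 100) 0)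
    (hx : ‖v‖ ^ 2 + t ^ 2 ≤ 1) (ht : 0 ≤ t) (hc0 : 0 ≤ c) (hc1 : c ≤ 71 / 100)
    (hcs : l * ‖v‖ ≤ c) (hc : 96 / 100 ≤ ‖v‖ ^ 2 + t ^ 2 → 705 / 1000 ≤ c)
    (hτ0 : 15 / 100 * ((1 - lw) * (c - l * ‖v‖)) ≤ τ) (hτ1 : τ ≤ 102 / 1000) :
    ‖v - lw • (l • v + c • k)‖ ^ 2 + (t - τ) ^ 2 ≤ 985 / 1000 := by
  have eV : ‖l • v + c • k‖ ^ 2 = (l * ‖v‖) ^ 2 + c ^ 2 + 2 * c * (l * ⟪v, k⟫) := by
    rw [norm_add_sq_real, norm_smul, norm_smul, real_inner_smul_left, real_inner_smul_right, hk,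
      Real.norm_of_nonneg hc0, Real.norm_of_nonneg hl0]
    ring
  have g1 : 0 ≤ c * (l * ⟪v, k⟫) := by positivity
  have g2 : c * (l * ⟪v, k⟫) ≤ 1 * (1 / 1000) :=
    mul_le_mul (by linarith) h2 (by positivity) zero_le_one
  refine lfg_scalar (norm_nonneg v) hl (norm_nonneg (l • v + c • k)) (by linarith) (by linarith)
    hw0 hw1 hw hx ht hc0 hc1 hcs hc hτ0 hτ1 ?_
  rw [norm_sub_sq_real, norm_smul, real_inner_smul_right, inner_add_right, real_inner_smul_right,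
    real_inner_smul_right, real_inner_self_eq_norm_sq, Real.norm_of_nonneg hw0]
  have g3 : 0 ≤ lw * (c * ⟪v, k⟫) := by positivity
  nlinarith

end Pool.Agent.Lib.MP_fcccf2_gt.CL
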