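import Mathlib
import Pool.Agent.Lib.MP_fcccf2_gt.CL.Hat
import Pool.Agent.Lib.MP_fcccf2_gt.CL.Core

set_option autoImplicit false
set_option linter.unusedSectionVars false
set_option linter.unusedVariables false

namespace Pool.Agent.Lib.MP_fcccf2_gt.CL

open scoped RealInnerProductSpace

variable {ι : Type} [Fintype ι] [DecidableEq ι]

lemma cr_eta_pos : 0 < eta := by unfold eta; positivity

lemma cr_tau_sq (bl : ι → Bool) (w w' : V ι) :
    (tau bl w - tau bl w') ^ 2 ≤ ‖PP w - PP w'‖ ^ 2 := by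
  have h := norm_sq_blocks bl (PP w - PP w')
  rw [res_sub, res_sub] at h
  have h1 := abs_norm_sub_norm_le (res (blk bl true) (PP w)) (res (blk bl true) (PP w'))
  have h2 := abs_norm_sub_norm_le (res (blk bl false) (PP w)) (res (blk bl false) (PP w'))
  have h3 := pow_le_pow_left₀ (abs_nonneg _) h1 2
  have h4 := pow_le_pow_left₀ (abs_nonneg _) h2 2
  rw [sq_abs] at h3 h4
  unfold tau
  nlinarith [sq_nonneg ((‖res (blk bl true) (PP w)‖ - ‖res (blk bl true) (PP w')‖) +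
    (‖res (blk bl false) (PP w)‖ - ‖res (blk bl false) (PP w')‖)), sq_nonneg ‖PP w - PP w'‖]

lemma cr_abs_tau (bl : ι → Bool) (w : V ι) : |tau bl w| ≤ 15 / 100 * ‖PP w‖ := by
  have h1 := norm_res_le (blk bl true) (PP w)
  have h2 := norm_res_le (blk bl false) (PP w)
  have h3 := norm_nonneg (res (blk bl true) (PP w))
  have h4 := norm_nonneg (res (blk bl false) (PP w))
  unfold tau
  rw [abs_le]
  constructor <;> linarith

lemma cr_norm_PP_le (w : V ι) : ‖PP w‖ ≤ 68 / 100 := by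
  rw [norm_PP]
  exact (min_le_right _ _).trans (by unfold rr; norm_num)

lemma cr_ss (u : V ι) : ss u = max (‖vv u‖ - 68 / 100) 0 := by
  unfold ss
  rw [norm_PP]
  unfold rr
  rcases le_total ‖vv u‖ (17 / 25) with h | h
  · rw [min_eq_left h, max_eq_right (by linarith)]; ring
  · rw [min_eq_right h, max_eq_left (by linarith)]; ring

lemma cr_inner_dm (u w : V ι) : 0 ≤ ⟪mm w - mm u, vv w⟫ := by
  rw [PiLp.inner_apply]
  refine Finset.sum_nonneg fun i _ => ?_
  simp only [mm, vv, PiLp.sub_apply, RCLike.inner_apply, conj_trivial]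
  rcases le_total (w i) eta with h | h
  · rw [max_eq_right (by linarith), zero_mul]
  · rw [min_eq_right h]
    exact mul_nonneg (le_max_right _ _) (by linarith [min_le_right (u i) eta])

lemma ghat_lip (bl : ι → Bool) (w w' : V ι) :
    dd (TT w) (tau bl w) (TT w') (tau bl w') ≤ ‖w - w'‖ := by
  unfold dd
  refine Real.sqrt_le_iff.2 ⟨norm_nonneg _, ?_⟩
  linarith [pyth w w', cr_tau_sq bl w w']

lemma ghat_ball (bl : ι → Bool) (w : V ι) : ‖TT w‖ ^ 2 + tau bl w ^ 2 ≤ ‖w‖ ^ 2 := by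
  have h1 := budget w
  have h2 := pow_le_pow_left₀ (abs_nonneg _) (cr_abs_tau bl w) 2
  rw [sq_abs] at h2
  have h3 : 0 ≤ ‖PP w‖ * ss w := mul_nonneg (norm_nonneg _) (ss_nonneg w)
  nlinarith [sq_nonneg ‖PP w‖]

lemma cr_vv_add (w : V ι) (l : ℝ) (hl : 0 ≤ l) :
    vv (mm w + l • vv w) = l • vv w := by
  ext i
  simp only [mm, vv, PiLp.add_apply, PiLp.smul_apply, smul_eq_mul]
  rcases le_total (w i) eta with h | h
  · rw [max_eq_right (by linarith : w i - eta ≤ 0), min_eq_left h, max_eq_right (by linarith)]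
    ring
  · rw [min_eq_right h]
    have : 0 ≤ l * max (w i - eta) 0 := mul_nonneg hl (le_max_right _ _)
    rw [max_eq_left (by linarith)]
    ring

lemma ufg_off (w : V ι) (hw : ‖w‖ ≤ 1) : ‖w - TT (TT w)‖ ≤ 1 - eta / 2 := by
  obtain ⟨l, hl0, hl1, hT, hP, hs⟩ := exists_lam w
  have h1 : vv (TT w) = l • vv w := by rw [hT]; exact cr_vv_add w l hl0
  have h0 := norm_vv_le w
  have h2 : ‖vv (TT w)‖ ≤ rr := by
    rw [h1, norm_smul, Real.norm_of_nonneg hl0, hs, cr_ss]
    unfold rr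
    exact max_le (by linarith) (by norm_num)
  have h3 : w - TT (TT w) = vv w := by
    have e1 := TT_add_PP (TT w)
    have e2 := TT_add_PP w
    rw [(TT_of_small _ h2).2, h1] at e1
    rw [hP] at e2
    calc w - TT (TT w) = (TT w + (1 - l) • vv w) - TT (TT w) := by rw [e2]
      _ = (TT (TT w) + l • vv w + (1 - l) • vv w) - TT (TT w) := by rw [e1]
      _ = vv w := by module
  rw [h3]
  have h4 := norm_vv_sq_le w
  have h5 := cr_eta_pos
  have h6 : eta ≤ 1 := by unfold eta; norm_num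
  have h7 := pow_le_pow_left₀ (norm_nonneg w) hw 2
  by_contra hh
  have hh := not_le.1 hh
  nlinarith [sq_nonneg ‖mm w‖]

lemma ufg_on (bl : ι → Bool) (u w e : V ι) (t c : ℝ) (hu : ‖u‖ ^ 2 + t ^ 2 ≤ 1) (hw : ‖w‖ ≤ 1)
    (he : ∀ i, 0 ≤ e i) (he1 : ‖e‖ = 1) (hc : Ramp c (sig u t)) (hon : 0.48 < sig u t) :
    ‖w - (TT u + c • e)‖ ≤ dd (TT w) (tau bl w) u t + 0.99 := by
  obtain ⟨l, hl0, hl1, hT, -, hs⟩ := exists_lam u
  obtain ⟨l', hl0', hl1', hT', -, hs'⟩ := exists_lam w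
  rw [cr_ss] at hs hs'
  have h2 : ⟪mm w - mm u, vv u⟫ ≤ 0 := by
    have := cr_inner_dm w u
    rw [← neg_sub, inner_neg_left] at this
    linarith
  have hτ : |tau bl w| ≤ 102 / 1000 := by linarith [cr_abs_tau bl w, cr_norm_PP_le w]
  have hc' : 0 ≤ c ∧ c ≤ 71 / 100 ∧ c ≤ 12 / 10 * sig u t - 15 / 100 := by
    rcases hc with ⟨h, -⟩ | ⟨h1, h2, h3⟩ | ⟨h1, h2, h3⟩
    · linarith
    · refine ⟨?_, ?_, ?_⟩ <;> linarith
    · refine ⟨?_, ?_, ?_⟩ <;> linarith
  have key := ufg_core (mm w - mm u) (vv u) (vv w) e l l' c t (tau bl w) he1 (cr_inner_dm u w) h2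
    (inner_nonneg_of_nonneg _ _ (vv_nonneg w) he) ((norm_vv_le w).trans hw) hl1 hs hl0' hl1' hs'
    (by unfold sig at hon; linarith) hc'.1 hc'.2.1 hc'.2.2 hτ
  have e1 : w - (TT u + c • e) = mm w - mm u + vv w - l • vv u - c • e := by
    rw [hT]
    nth_rewrite 1 [← mm_add_vv w]
    module
  have e2 : TT w - u = mm w - mm u + l' • vv w - vv u := by
    rw [hT']
    nth_rewrite 1 [← mm_add_vv u]
    module
  unfold dd
  rw [e1, e2, ← neg_sub t, neg_sq]
  linarith

lemma cr_norm_le {a b : V ι} (h : ∀ i, |a i| ≤ |b i|) : ‖a‖ ≤ ‖b‖ := by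
  refine le_of_sq (norm_nonneg _) ?_
  rw [EuclideanSpace.real_norm_sq_eq, EuclideanSpace.real_norm_sq_eq]
  exact Finset.sum_le_sum fun i _ => sq_le_sq.2 (h i)

lemma dd_triangle (a b c : V ι) (x y z : ℝ) : dd a x c z ≤ dd a x b y + dd b y c z := by
  unfold dd
  have h1 : ‖a - c‖ ≤ ‖a - b‖ + ‖b - c‖ := norm_sub_le_norm_sub_add_norm_sub a b c
  have h2 := pow_le_pow_left₀ (norm_nonneg _) h1 2
  have e1 : √(‖a - b‖ ^ 2 + (x - y) ^ 2) ^ 2 = ‖a - b‖ ^ 2 + (x - y) ^ 2 :=
    Real.sq_sqrt (by positivity)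
  have e2 : √(‖b - c‖ ^ 2 + (y - z) ^ 2) ^ 2 = ‖b - c‖ ^ 2 + (y - z) ^ 2 :=
    Real.sq_sqrt (by positivity)
  have h3 := cs2 (Real.sqrt_nonneg _) (Real.sqrt_nonneg _) e1.ge e2.ge
  refine Real.sqrt_le_iff.2 ⟨by positivity, ?_⟩
  nlinarith

lemma cr_TT_abs (u : V ι) (l : ℝ) (hl : 0 ≤ l) (i : ι) :
    |mm u i| ≤ |(mm u + l • vv u) i| ∧ |(l • vv u) i| ≤ |(mm u + l • vv u) i| := by
  simp only [mm, vv, PiLp.add_apply, PiLp.smul_apply, smul_eq_mul]
  have h0 := cr_eta_pos
  rcases le_total (u i) eta with h | h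
  · rw [max_eq_right (by linarith : u i - eta ≤ 0), mul_zero, add_zero, abs_zero]
    exact ⟨le_rfl, abs_nonneg _⟩
  · have : 0 ≤ l * max (u i - eta) 0 := mul_nonneg hl (le_max_right _ _)
    rw [min_eq_right h, abs_of_nonneg h0.le, abs_of_nonneg this, abs_of_nonneg (by linarith)]
    constructor <;> linarith

lemma lfg_point (bl : ι → Bool) (b : Bool) (u : V ι) (t c : ℝ) (S : Finset ι)
    (hu : ‖u‖ ^ 2 + t ^ 2 ≤ 1) (hc : Ramp c (sig u t)) (hS : S.Nonempty) (hSb : S ⊆ blk bl b)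
    (hcard : S.card ≤ 10 ^ 8) (hneu : ‖res S (TT u)‖ ≤ eps)
    (hb : (b = true ∧ 0 ≤ t) ∨ (b = false ∧ t ≤ 0)) :
    dd (TT (TT u + c • ind S)) (tau bl (TT u + c • ind S)) u t ≤ 0.994 := by
  obtain ⟨l, hl0, hl1, hT, -, hs⟩ := exists_lam u
  rw [cr_ss] at hs
  have h0 := cr_eta_pos
  have hρ := pow_le_pow_left₀ (norm_nonneg _) (norm_vv_le u) 2
  have hσ2 : sig u t ^ 2 = ‖vv u‖ ^ 2 + t ^ 2 := Real.sq_sqrt (by positivity)
  have hσ0 : 0 ≤ sig u t := Real.sqrt_nonneg _
  have hσρ : ‖vv u‖ ≤ sig u t := le_of_sq hσ0 (by linarith [sq_nonneg t])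
  have hσ1 : sig u t ≤ 1 := le_of_sq zero_le_one (by linarith)
  have hc' : 0 ≤ c ∧ c ≤ 71 / 100 ∧ l * ‖vv u‖ ≤ c ∧
      (96 / 100 ≤ ‖vv u‖ ^ 2 + t ^ 2 → 705 / 1000 ≤ c) := by
    rw [hs, ← hσ2]
    rcases hc with ⟨h, rfl⟩ | ⟨h1, h2, h3⟩ | ⟨h1, h2, h3⟩
    · refine ⟨le_rfl, by norm_num, max_le (by linarith) le_rfl, fun h' => ?_⟩
      nlinarith
    · refine ⟨by linarith, by linarith, max_le (by linarith) (by linarith), fun h' => ?_⟩
      nlinarith
    · exact ⟨by linarith, by linarith, max_le (by linarith) (by linarith), fun _ => by linarith⟩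
  obtain ⟨hc0, hc1, hcs, hc2⟩ := hc'
  have hk0 := ind_nonneg S
  have hkS : ∀ i, i ∉ S → ind S i = 0 := fun i hi => by simp [ind, hi]
  set k := ind S with hk
  set n : V ι := WithLp.toLp 2 fun i => if i ∈ S then eta - mm u i else 0 with hn
  have hn1 : ‖n‖ ≤ 2 / 10000 := by
    refine le_of_sq (by norm_num) ?_
    have h1 : ‖n‖ ^ 2 ≤ ∑ i, (2 * (if i ∈ S then eta ^ 2 else 0) + 2 * res S (TT u) i ^ 2) := by
      rw [EuclideanSpace.real_norm_sq_eq]
      refine Finset.sum_le_sum fun i _ => ?_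
      have h2 := sq_le_sq.2 (cr_TT_abs u l hl0 i).1
      rw [← hT] at h2
      simp only [hn, res]
      split_ifs
      · nlinarith [sq_nonneg (eta + mm u i)]
      · simp
    rw [Finset.sum_add_distrib, ← Finset.mul_sum, ← Finset.mul_sum,
      ← EuclideanSpace.real_norm_sq_eq, Finset.sum_ite_mem, Finset.univ_inter, Finset.sum_const,
      nsmul_eq_mul] at h1
    have h3 := pow_le_pow_left₀ (norm_nonneg _) hneu 2
    have h4 : (S.card : ℝ) ≤ 10 ^ 8 := by exact_mod_cast hcard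
    have h5 : (S.card : ℝ) * eta ^ 2 ≤ 10 ^ 8 * eta ^ 2 :=
      mul_le_mul_of_nonneg_right h4 (by positivity)
    unfold eta eps at *
    linarith
  have hvk : l * ⟪vv u, k⟫ ≤ 1 / 1000 := by
    rw [← real_inner_smul_left]
    have h1 := (le_abs_self _).trans (abs_inner_ind_le S (l • vv u))
    have h2 : ‖res S (l • vv u)‖ ≤ ‖res S (TT u)‖ := by
      refine cr_norm_le fun i => ?_
      have h3 := (cr_TT_abs u l hl0 i).2
      rw [← hT] at h3
      simp only [res]
      split_ifs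
      · exact h3
      · exact le_rfl
    unfold eps at hneu
    linarith
  set z := TT u + c • k with hz
  have hV0 : ∀ i, 0 ≤ l * vv u i + c * k i := fun i =>
    add_nonneg (mul_nonneg hl0 (vv_nonneg u i)) (mul_nonneg hc0 (hk0 i))
  have hvz : vv (z + n) = l • vv u + c • k := by
    ext i
    by_cases hi : i ∈ S
    · have e : (z + n) i - eta = l * vv u i + c * k i := by
        simp only [hz, hT, hn, PiLp.add_apply, PiLp.smul_apply, smul_eq_mul, hi, if_true]
        ring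
      change max ((z + n) i - eta) 0 = l * vv u i + c * k i
      rw [e, max_eq_left (hV0 i)]
    · have e : (z + n) i = (mm u + l • vv u) i := by
        simp only [hz, hT, hn, PiLp.add_apply, PiLp.smul_apply, smul_eq_mul, hi, if_false,
          hkS i hi]
        ring
      have e2 := congrArg (fun y : V ι => y i) (cr_vv_add u l hl0)
      change max ((z + n) i - eta) 0 = (l • vv u) i + c * k i
      rw [e, hkS i hi, mul_zero, add_zero]
      exact e2
  have hmz : mm (z + n) = mm u + n := by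
    have e := mm_add_vv (z + n)
    rw [hvz] at e
    calc mm (z + n) = (mm (z + n) + (l • vv u + c • k)) - (l • vv u + c • k) := by module
      _ = z + n - (l • vv u + c • k) := by rw [e]
      _ = mm u + n := by rw [hz, hT]; module
  obtain ⟨lw, hw0, hw1, hTz, hPz, hsz⟩ := exists_lam (z + n)
  rw [cr_ss, hvz] at hsz
  rw [hvz] at hPz
  rw [hvz, hmz] at hTz
  have hPi : ∀ i, PP (z + n) i = (1 - lw) * (l * vv u i + c * k i) := fun i => by
    rw [hPz]; simp only [PiLp.add_apply, PiLp.smul_apply, smul_eq_mul]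
  have hw2 : 0 ≤ 1 - lw := by linarith
  have hown : (1 - lw) * c ≤ ‖res (blk bl b) (PP (z + n))‖ := by
    have h1 : ‖((1 - lw) * c) • k‖ ≤ ‖res (blk bl b) (PP (z + n))‖ := by
      refine cr_norm_le fun i => ?_
      by_cases hi : i ∈ S
      · simp only [res, hSb hi, if_true, hPi, PiLp.smul_apply, smul_eq_mul]
        have h2 : 0 ≤ (1 - lw) * (l * vv u i) := mul_nonneg hw2 (mul_nonneg hl0 (vv_nonneg u i))
        rw [abs_of_nonneg (mul_nonneg (mul_nonneg hw2 hc0) (hk0 i)),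
          abs_of_nonneg (mul_nonneg hw2 (hV0 i))]
        linarith
      · simp only [PiLp.smul_apply, smul_eq_mul, hkS i hi, mul_zero, abs_zero]
        exact abs_nonneg _
    rwa [norm_smul, norm_ind S hS, mul_one, Real.norm_of_nonneg (mul_nonneg hw2 hc0)] at h1
  have hfor : ‖res (blk bl (!b)) (PP (z + n))‖ ≤ (1 - lw) * (l * ‖vv u‖) := by
    have h1 : ‖res (blk bl (!b)) (PP (z + n))‖ ≤ ‖((1 - lw) * l) • vv u‖ := by
      refine cr_norm_le fun i => ?_
      simp only [res]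
      split_ifs with hi
      · have hi' : i ∉ S := fun h => by
          have h2 := hSb h
          simp only [blk, Finset.mem_filter, Finset.mem_univ, true_and] at hi h2
          rw [h2] at hi
          cases b <;> simp at hi
        rw [hPi, hkS i hi', PiLp.smul_apply, smul_eq_mul]
        exact le_of_eq (by ring_nf)
      · rw [abs_zero]; exact abs_nonneg _
    rwa [norm_smul, Real.norm_of_nonneg (mul_nonneg hw2 hl0), mul_assoc] at h1
  have hτ : |tau bl (z + n)| ≤ 102 / 1000 := by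
    linarith [cr_abs_tau bl (z + n), cr_norm_PP_le (z + n)]
  have hτ' := abs_le.1 hτ
  have hvk0 : 0 ≤ ⟪vv u, k⟫ := inner_nonneg_of_nonneg _ _ (vv_nonneg u) hk0
  have key : ‖vv u - lw • (l • vv u + c • k)‖ ^ 2 + (t - tau bl (z + n)) ^ 2 ≤ 985 / 1000 := by
    rcases hb with ⟨rfl, ht⟩ | ⟨rfl, ht⟩
    · refine lfg_core (vv u) k l lw c t _ (norm_ind S hS) hvk0 hvk hl0 hs hw0 hw1 hsz
        (by linarith) ht hc0 hc1 hcs hc2 ?_ hτ'.2
      unfold tau
      simp only [Bool.not_true] at hfor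
      linarith
    · have := lfg_core (vv u) k l lw c (-t) (-tau bl (z + n)) (norm_ind S hS) hvk0 hvk hl0 hs hw0
        hw1 hsz (by rw [neg_sq]; linarith) (by linarith) hc0 hc1 hcs (by rw [neg_sq]; exact hc2)
        (by
          unfold tau
          simp only [Bool.not_false] at hfor
          linarith) (by linarith [hτ'.1])
      linarith
  have t1 := dd_triangle (TT z) (TT (z + n)) u (tau bl z) (tau bl (z + n)) t
  have t2 := dd_triangle (TT (z + n)) (TT (z + n) - n) u (tau bl (z + n)) (tau bl (z + n)) t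
  have t3 := ghat_lip bl z (z + n)
  rw [sub_add_cancel_left, norm_neg] at t3
  have t4 : dd (TT (z + n)) (tau bl (z + n)) (TT (z + n) - n) (tau bl (z + n)) = ‖n‖ := by
    unfold dd
    rw [sub_sub_cancel, sub_self]
    simp
  have t5 : dd (TT (z + n) - n) (tau bl (z + n)) u t ≤ 9925 / 10000 := by
    unfold dd
    refine Real.sqrt_le_iff.2 ⟨by norm_num, ?_⟩
    have e : TT (z + n) - n - u = -(vv u - lw • (l • vv u + c • k)) := by
      rw [hTz]
      nth_rewrite 3 [← mm_add_vv u]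
      module
    rw [e, norm_neg, ← neg_sub t, neg_sq]
    linarith
  linarith

end Pool.Agent.Lib.MP_fcccf2_gt.CL
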