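import Mathlib
import Pool.Agent.Lib.MP_fcccf2_gt.GH

set_option autoImplicit false

/-! Transport of a correspondence from a model space to the Euclidean balls. -/

namespace Pool.Agent.Lib.MP_fcccf2_gt.CL

open Module

/-- All coordinates but the first. -/
noncomputable def tl {m : ℕ} (x : E (m + 1)) : E m := WithLp.toLp 2 fun i => x i.succ

/-- Prepending a coordinate. -/
noncomputable def cn {m : ℕ} (t : ℝ) (u : E m) : E (m + 1) :=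
  WithLp.toLp 2 (Fin.cons t (fun i => u i) : Fin (m + 1) → ℝ)

lemma tl_cn {m : ℕ} (t : ℝ) (u : E m) : tl (cn t u) = u := by
  ext i; simp [tl, cn]

lemma cn_zero {m : ℕ} (t : ℝ) (u : E m) : cn t u 0 = t := by simp [cn]

lemma norm_sq_tl {m : ℕ} (x : E (m + 1)) : ‖x‖ ^ 2 = ‖tl x‖ ^ 2 + x 0 ^ 2 := by
  rw [EuclideanSpace.real_norm_sq_eq, EuclideanSpace.real_norm_sq_eq, Fin.sum_univ_succ, add_comm]
  simp [tl]

lemma dist_tl {m : ℕ} (x y : E (m + 1)) :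
    dist x y = √(‖tl x - tl y‖ ^ 2 + (x 0 - y 0) ^ 2) := by
  have e : tl x - tl y = tl (x - y) := by ext i; simp [tl]
  rw [e, dist_eq_norm, ← PiLp.sub_apply, ← norm_sq_tl, Real.sqrt_sq (norm_nonneg _)]

theorem dGH_le_of_maps {V : Type} [NormedAddCommGroup V] [InnerProductSpace ℝ V]
    [FiniteDimensional ℝ V] (H : Submodule ℝ V) {m : ℕ} (hH : finrank ℝ H = m) {δ : ℝ}
    (hδ : 0 < δ) (f : V → ℝ → V) (g₁ : V → V) (g₂ : V → ℝ)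
    (hf : ∀ u ∈ H, ∀ t, ‖u‖ ^ 2 + t ^ 2 ≤ 1 → f u t ∈ H ∧ ‖f u t‖ ≤ 1)
    (hg : ∀ w ∈ H, ‖w‖ ≤ 1 → g₁ w ∈ H ∧ ‖g₁ w‖ ^ 2 + g₂ w ^ 2 ≤ 1)
    (hff : ∀ u ∈ H, ∀ t, ‖u‖ ^ 2 + t ^ 2 ≤ 1 → ∀ u' ∈ H, ∀ t', ‖u'‖ ^ 2 + t' ^ 2 ≤ 1 →
      |√(‖u - u'‖ ^ 2 + (t - t') ^ 2) - ‖f u t - f u' t'‖| ≤ δ)
    (hfg : ∀ u ∈ H, ∀ t, ‖u‖ ^ 2 + t ^ 2 ≤ 1 → ∀ w ∈ H, ‖w‖ ≤ 1 →
      |√(‖u - g₁ w‖ ^ 2 + (t - g₂ w) ^ 2) - ‖f u t - w‖| ≤ δ)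
    (hgg : ∀ w ∈ H, ‖w‖ ≤ 1 → ∀ w' ∈ H, ‖w'‖ ≤ 1 →
      |√(‖g₁ w - g₁ w'‖ ^ 2 + (g₂ w - g₂ w') ^ 2) - ‖w - w'‖| ≤ δ) :
    dGH m (m + 1) ≤ δ / 2 := by
  subst hH
  set m := finrank ℝ H
  let φ : H ≃ₗᵢ[ℝ] E m := (stdOrthonormalBasis ℝ H).repr
  let ψ : E m → V := fun y => (φ.symm y : H)
  have hψH : ∀ y, ψ y ∈ H := fun y => (φ.symm y).2
  have hψn : ∀ y, ‖ψ y‖ = ‖y‖ := fun y => φ.symm.norm_map y
  have hψd : ∀ y y', ‖ψ y - ψ y'‖ = ‖y - y'‖ := fun y y' => by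
    rw [← hψn (y - y')]
    simp only [ψ, map_sub, Submodule.coe_sub]
  have hψφ : ∀ (v : V) (hv : v ∈ H), ψ (φ ⟨v, hv⟩) = v := fun v hv => by simp [ψ]
  have hx : ∀ x : Ball (m + 1), ‖ψ (tl x.1)‖ ^ 2 + x.1 0 ^ 2 ≤ 1 := fun x => by
    have h := mem_closedBall_zero_iff.1 x.2
    rw [hψn, ← norm_sq_tl]
    nlinarith [norm_nonneg x.1]
  have hy : ∀ y : Ball m, ‖ψ y.1‖ ≤ 1 := fun y => by
    rw [hψn]; exact mem_closedBall_zero_iff.1 y.2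
  let F : Ball (m + 1) → Ball m := fun x =>
    ⟨φ ⟨f (ψ (tl x.1)) (x.1 0), (hf _ (hψH _) _ (hx x)).1⟩, by
      rw [mem_closedBall_zero_iff, φ.norm_map]
      exact (hf _ (hψH _) _ (hx x)).2⟩
  let G : Ball m → Ball (m + 1) := fun y =>
    ⟨cn (g₂ (ψ y.1)) (φ ⟨g₁ (ψ y.1), (hg _ (hψH _) (hy y)).1⟩), by
      rw [mem_closedBall_zero_iff]
      refine (abs_le_of_sq_le_sq' ?_ zero_le_one).2
      rw [norm_sq_tl, tl_cn, cn_zero, φ.norm_map, one_pow]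
      exact (hg _ (hψH _) (hy y)).2⟩
  have dm : ∀ y y' : Ball m, dist y y' = ‖ψ y.1 - ψ y'.1‖ := fun y y' => by
    rw [hψd, Subtype.dist_eq, dist_eq_norm]
  have dn : ∀ x x' : Ball (m + 1), dist x x' =
      √(‖ψ (tl x.1) - ψ (tl x'.1)‖ ^ 2 + (x.1 0 - x'.1 0) ^ 2) := fun x x' => by
    rw [hψd, Subtype.dist_eq, dist_tl]
  have hF : ∀ x, ψ (F x).1 = f (ψ (tl x.1)) (x.1 0) := fun x => hψφ _ _
  have hG1 : ∀ y, ψ (tl (G y).1) = g₁ (ψ y.1) := fun y => by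
    simp only [G, tl_cn]; exact hψφ _ _
  have hG2 : ∀ y, (G y).1 0 = g₂ (ψ y.1) := fun y => cn_zero _ _
  refine gh_le_of_corr (Z := Ball (m + 1) ⊕ Ball m) (Sum.elim F id) (Sum.elim id G)
    (fun y => ⟨Sum.inr y, rfl⟩) (fun x => ⟨Sum.inl x, rfl⟩) (δ / 2) (by linarith) ?_
  have e2 : 2 * (δ / 2) = δ := by ring
  have cross : ∀ (x : Ball (m + 1)) (y : Ball m), |dist (F x) y - dist x (G y)| ≤ δ := by
    intro x y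
    rw [dm, dn, hF, hG1, hG2, abs_sub_comm]
    exact hfg _ (hψH _) _ (hx x) _ (hψH _) (hy y)
  rw [e2]
  rintro (x | y) (x' | y') <;> simp only [Sum.elim_inl, Sum.elim_inr, id]
  · rw [dm, dn, hF, hF, abs_sub_comm]
    exact hff _ (hψH _) _ (hx x) _ (hψH _) _ (hx x')
  · exact cross x y'
  · rw [dist_comm y, dist_comm (G y)]
    exact cross x' y
  · rw [dm, dn, hG1, hG1, hG2, hG2, abs_sub_comm]
    exact hgg _ (hψH _) (hy y) _ (hψH _) (hy y')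

/-- The vectors both of whose block sums vanish. -/
noncomputable def HH (α β : Type) [Fintype α] [Fintype β] :
    Submodule ℝ (EuclideanSpace ℝ (α ⊕ β)) where
  carrier := {u | ∑ i, u (Sum.inl i) = 0 ∧ ∑ j, u (Sum.inr j) = 0}
  add_mem' := by
    rintro a b ⟨h1, h2⟩ ⟨h3, h4⟩
    simp [Finset.sum_add_distrib, h1, h2, h3, h4]
  zero_mem' := by simp
  smul_mem' := by
    rintro c a ⟨h1, h2⟩
    simp [← Finset.mul_sum, h1, h2]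

lemma mem_HH {α β : Type} [Fintype α] [Fintype β] {u : EuclideanSpace ℝ (α ⊕ β)} :
    u ∈ HH α β ↔ ∑ i, u (Sum.inl i) = 0 ∧ ∑ j, u (Sum.inr j) = 0 := Iff.rfl

lemma finrank_HH (α β : Type) [Fintype α] [Fintype β] [Nonempty α] [Nonempty β] :
    finrank ℝ (HH α β) + 2 = Fintype.card α + Fintype.card β := by
  classical
  let L : EuclideanSpace ℝ (α ⊕ β) →ₗ[ℝ] ℝ × ℝ :=
    { toFun := fun u => (∑ i, u (Sum.inl i), ∑ j, u (Sum.inr j))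
      map_add' := fun a b => by simp [Finset.sum_add_distrib]
      map_smul' := fun c a => by simp [Finset.mul_sum] }
  have hk : LinearMap.ker L = HH α β := by
    ext u
    simp [L, mem_HH]
  have hr : LinearMap.range L = ⊤ := by
    rw [LinearMap.range_eq_top]
    rintro ⟨a, b⟩
    obtain ⟨i⟩ := ‹Nonempty α›
    obtain ⟨j⟩ := ‹Nonempty β›
    refine ⟨EuclideanSpace.single (Sum.inl i) a + EuclideanSpace.single (Sum.inr j) b, ?_⟩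
    simp [L]
  have h := LinearMap.finrank_range_add_finrank_ker L
  rw [hk, hr, finrank_top, finrank_euclideanSpace, Fintype.card_sum] at h
  simp only [finrank_prod, finrank_self] at h
  omega

/-- The data of a correspondence of distortion at most `δ` in the block model. -/
def Model (α β : Type) [Fintype α] [Fintype β] (δ : ℝ) : Prop :=
  ∃ (f : EuclideanSpace ℝ (α ⊕ β) → ℝ → EuclideanSpace ℝ (α ⊕ β))
    (g₁ : EuclideanSpace ℝ (α ⊕ β) → EuclideanSpace ℝ (α ⊕ β))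
    (g₂ : EuclideanSpace ℝ (α ⊕ β) → ℝ),
    (∀ u ∈ HH α β, ∀ t, ‖u‖ ^ 2 + t ^ 2 ≤ 1 → f u t ∈ HH α β ∧ ‖f u t‖ ≤ 1) ∧
    (∀ w ∈ HH α β, ‖w‖ ≤ 1 → g₁ w ∈ HH α β ∧ ‖g₁ w‖ ^ 2 + g₂ w ^ 2 ≤ 1) ∧
    (∀ u ∈ HH α β, ∀ t, ‖u‖ ^ 2 + t ^ 2 ≤ 1 → ∀ u' ∈ HH α β, ∀ t', ‖u'‖ ^ 2 + t' ^ 2 ≤ 1 →
      |√(‖u - u'‖ ^ 2 + (t - t') ^ 2) - ‖f u t - f u' t'‖| ≤ δ) ∧
    (∀ u ∈ HH α β, ∀ t, ‖u‖ ^ 2 + t ^ 2 ≤ 1 → ∀ w ∈ HH α β, ‖w‖ ≤ 1 →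
      |√(‖u - g₁ w‖ ^ 2 + (t - g₂ w) ^ 2) - ‖f u t - w‖| ≤ δ) ∧
    (∀ w ∈ HH α β, ‖w‖ ≤ 1 → ∀ w' ∈ HH α β, ‖w'‖ ≤ 1 →
      |√(‖g₁ w - g₁ w'‖ ^ 2 + (g₂ w - g₂ w') ^ 2) - ‖w - w'‖| ≤ δ)

/-- The exact upper bound follows from the block model for large blocks. -/
theorem dGH_succ_le_of_model (N : ℕ) (hN : 1000000 ≤ N)
    (h : ∀ (p q : ℕ) (δ : ℝ), N ≤ p → N ≤ q → 1 ≤ δ → δ ≤ 1 + 1 / 1000000 →
      δ ^ 2 / 2 * (1 - 1 / p) + δ ^ 2 / 2 * (1 - 1 / q) = (2 - δ) ^ 2 →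
      Model (Fin p) (Fin q) δ)
    (m : ℕ) (hm : 2 * N ≤ m) : dGH m (m + 1) ≤ 1 / (1 + √(kapSq m)) := by
  set p := m / 2 + 1 with hp
  set q := (m + 1) / 2 + 1 with hq
  have hpN : N ≤ p := by omega
  have hqN : N ≤ q := by omega
  have hp' : (1000000 : ℝ) ≤ p := by exact_mod_cast hN.trans hpN
  have hq' : (1000000 : ℝ) ≤ q := by exact_mod_cast hN.trans hqN
  have ip : 1 / (p : ℝ) ≤ 1 / 1000000 := one_div_le_one_div_of_le (by norm_num) hp'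
  have iq : 1 / (q : ℝ) ≤ 1 / 1000000 := one_div_le_one_div_of_le (by norm_num) hq'
  have ip0 : 0 ≤ 1 / (p : ℝ) := by positivity
  have iq0 : 0 ≤ 1 / (q : ℝ) := by positivity
  have ek : kapSq m = 1 - (1 / (p : ℝ) + 1 / q) / 2 := rfl
  set κ := √(kapSq m) with hκ
  have hκ0 : 0 ≤ κ := Real.sqrt_nonneg _
  have hκ2 : κ ^ 2 = kapSq m := Real.sq_sqrt (by rw [ek]; linarith)
  have hκ1 : κ ≤ 1 := by nlinarith
  have hκ3 : 1 - 1 / 1000000 ≤ κ := by nlinarith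
  set δ := 2 / (1 + κ) with hδ
  have eδ : δ * (1 + κ) = 2 := div_mul_cancel₀ _ (by positivity)
  have hδ0 : 0 < δ := by positivity
  have hδ1 : 1 ≤ δ := by rw [hδ, le_div_iff₀ (by positivity)]; linarith
  have hδ2 : δ ≤ 1 + 1 / 1000000 := by rw [hδ, div_le_iff₀ (by positivity)]; nlinarith
  have hδ3 : δ ^ 2 / 2 * (1 - 1 / p) + δ ^ 2 / 2 * (1 - 1 / q) = (2 - δ) ^ 2 := by
    have e1 : 2 - δ = δ * κ := by linarith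
    rw [e1, mul_pow, hκ2, ek]
    ring
  obtain ⟨f, g₁, g₂, h1, h2, h3, h4, h5⟩ := h p q δ hpN hqN hδ1 hδ2 hδ3
  have : Nonempty (Fin p) := ⟨⟨0, by omega⟩⟩
  have : Nonempty (Fin q) := ⟨⟨0, by omega⟩⟩
  have hr := finrank_HH (Fin p) (Fin q)
  rw [Fintype.card_fin, Fintype.card_fin] at hr
  have := dGH_le_of_maps (HH (Fin p) (Fin q)) (m := m) (by omega) hδ0 f g₁ g₂ h1 h2 h3 h4 h5
  refine this.trans (le_of_eq ?_)
  rw [hδ]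
  field_simp

end Pool.Agent.Lib.MP_fcccf2_gt.CL
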