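import Mathlib
import Pool.Agent.Lib.MP_fcccf2_gt.CL.D
import Pool.Agent.Lib.MP_fcccf2_gt.CL.Transport

set_option autoImplicit false

namespace Pool.Agent.Lib.MP_fcccf2_gt.CL

variable {α β : Type} [Fintype α] [Fintype β] [DecidableEq α] [DecidableEq β]

omit [DecidableEq α] [DecidableEq β] in
lemma sum_blk_true (F : α ⊕ β → ℝ) :
    ∑ i ∈ blk (Sum.isLeft : α ⊕ β → Bool) true, F i = ∑ i, F (Sum.inl i) := by
  unfold blk
  rw [Finset.sum_filter, Fintype.sum_sum_type]
  simp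

omit [DecidableEq α] [DecidableEq β] in
lemma sum_blk_false (F : α ⊕ β → ℝ) :
    ∑ i ∈ blk (Sum.isLeft : α ⊕ β → Bool) false, F i = ∑ i, F (Sum.inr i) := by
  unfold blk
  rw [Finset.sum_filter, Fintype.sum_sum_type]
  simp

omit [DecidableEq α] [DecidableEq β] in
lemma card_blk_true : (blk (Sum.isLeft : α ⊕ β → Bool) true).card = Fintype.card α := by
  have h := sum_blk_true (α := α) (β := β) fun _ => 1
  simp only [Finset.sum_const, nsmul_eq_mul, mul_one, Finset.card_univ] at h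
  exact_mod_cast h

omit [DecidableEq α] [DecidableEq β] in
lemma card_blk_false : (blk (Sum.isLeft : α ⊕ β → Bool) false).card = Fintype.card β := by
  have h := sum_blk_false (α := α) (β := β) fun _ => 1
  simp only [Finset.sum_const, nsmul_eq_mul, mul_one, Finset.card_univ] at h
  exact_mod_cast h

omit [DecidableEq α] [DecidableEq β] in
lemma InH_iff (u : V (α ⊕ β)) : InH (Sum.isLeft : α ⊕ β → Bool) u ↔ u ∈ HH α β := by
  rw [mem_HH, ← sum_blk_true fun i => u i, ← sum_blk_false fun i => u i]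
  unfold InH
  rw [Bool.forall_bool, and_comm]

omit [DecidableEq α] [DecidableEq β] in
theorem model_of_corr {δ : ℝ} {f : V (α ⊕ β) → ℝ → V (α ⊕ β)} {g : V (α ⊕ β) → V (α ⊕ β)}
    {τ : V (α ⊕ β) → ℝ} (h : Corr (Sum.isLeft : α ⊕ β → Bool) δ f g τ) : Model α β δ := by
  refine ⟨f, g, τ, fun u hu t ht => ?_, fun w hw h1 => ?_, fun u hu t ht u' hu' t' ht' => ?_,
    fun u hu t ht w hw h1 => ?_, fun w hw h1 w' hw' h1' => ?_⟩
  · rw [← InH_iff] at hu ⊢
    exact h.fH u t hu ht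
  · rw [← InH_iff] at hw ⊢
    exact h.gH w hw h1
  · exact h.ff u t u' t' ((InH_iff _).2 hu) ht ((InH_iff _).2 hu') ht'
  · have := h.fg u t w ((InH_iff _).2 hu) ht ((InH_iff _).2 hw) h1
    unfold dd at this
    rwa [norm_sub_rev (g w), norm_sub_rev w, ← neg_sub t, neg_sq] at this
  · exact h.gg w w' ((InH_iff _).2 hw) h1 ((InH_iff _).2 hw') h1'

/-- The exact upper bound from a correspondence in the labelled model. -/
theorem dGH_succ_le_of_corr
    (h : ∀ (ι : Type) [Fintype ι] [DecidableEq ι] (bl : ι → Bool) (δ : ℝ), Big bl → 1 ≤ δ →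
      δ ≤ 1 + 1 / 1000000 →
      δ ^ 2 / 2 * (1 - 1 / ((blk bl true).card : ℝ)) +
        δ ^ 2 / 2 * (1 - 1 / ((blk bl false).card : ℝ)) = (2 - δ) ^ 2 →
      ∃ f g τ, Corr bl δ f g τ)
    (m : ℕ) (hm : 2 * 10 ^ 44 ≤ m) : dGH m (m + 1) ≤ 1 / (1 + √(kapSq m)) := by
  refine dGH_succ_le_of_model (10 ^ 44) (by norm_num) (fun p q δ hp hq h1 h2 h3 => ?_) m hm
  obtain ⟨f, g, τ, hc⟩ := h (Fin p ⊕ Fin q) Sum.isLeft δ (by
    rintro (_ | _)
    · rw [card_blk_false, Fintype.card_fin]; exact hq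
    · rw [card_blk_true, Fintype.card_fin]; exact hp) h1 h2 (by
    rw [card_blk_true, card_blk_false, Fintype.card_fin, Fintype.card_fin]; exact h3)
  exact model_of_corr hc

end Pool.Agent.Lib.MP_fcccf2_gt.CL
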