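import Mathlib
import Pool.Agent.Lib.MP_fcccf2_gt.CL.D

set_option autoImplicit false

namespace Pool.Agent.Lib.MP_fcccf2_gt.CL

lemma tri2 (d b C X z Q τ : ℝ) (hd : 0 ≤ d) (hb : 0 ≤ b) (hC : 0 ≤ C) (hX : 0 ≤ X) (hz : 0 ≤ z)
    (hτ0 : 0 ≤ τ) (hτ : τ ≤ C + X) (hQ : Q ^ 2 ≤ (d + b) ^ 2 + τ ^ 2)
    (h1 : d ^ 2 + C ^ 2 ≤ z ^ 2) (h2 : b ^ 2 + X ^ 2 ≤ 0.994) : Q ≤ z + 0.997 := by
  have h3 : (d * b + C * X) ^ 2 ≤ (0.997 * z) ^ 2 := by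
    have e : (d * b + C * X) ^ 2 ≤ (d ^ 2 + C ^ 2) * (b ^ 2 + X ^ 2) := by
      nlinarith [sq_nonneg (d * X - C * b)]
    have e2 : (d ^ 2 + C ^ 2) * (b ^ 2 + X ^ 2) ≤ z ^ 2 * 0.994 :=
      mul_le_mul h1 h2 (by positivity) (by positivity)
    nlinarith [sq_nonneg z]
  have h4 : d * b + C * X ≤ 0.997 * z := abs_le_of_sq_le_sq' h3 (by positivity) |>.2
  have h5 : τ ^ 2 ≤ (C + X) ^ 2 := pow_le_pow_left₀ hτ0 hτ 2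
  have h6 : Q ^ 2 ≤ (z + 0.997) ^ 2 := by nlinarith
  exact (abs_le_of_sq_le_sq' h6 (by positivity)).2

/-- both codes have full length -/
lemma scal_full (d b z Q S τ : ℝ) (hd : 0 ≤ d) (hb : 0 ≤ b) (hz : 0.54 ≤ z) (hS : 0 ≤ S)
    (hQ2 : Q ≤ 2) (hQ : Q ^ 2 ≤ (d + b) ^ 2 + τ ^ 2) (hτ0 : 0 ≤ τ) (hτ : τ ≤ 1.88)
    (hI : τ ^ 2 + d ^ 2 ≤ 4 - 2 * b ^ 2 - 2.72 * S)
    (hZ : d ^ 2 + 0.9933 - 1.4144 * S ≤ z ^ 2)
    (hbS : S = 0 ∨ 0.03 + 0.523 * S ≤ 0.563 * b ^ 2) : Q ≤ z + 0.997 := by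
  by_cases h1 : 1.003 ≤ z
  · linarith
  push Not at h1
  have hch : z ^ 2 + 0.54 * 1.003 ≤ 1.543 * z := by nlinarith
  by_cases h2 : 0.03 + 0.523 * S ≤ 0.563 * b ^ 2
  · have h6 : Q ^ 2 ≤ (z + 0.997) ^ 2 := by
      nlinarith [sq_nonneg (2.29 * d - b), sq_nonneg d]
    exact (abs_le_of_sq_le_sq' h6 (by positivity)).2
  · have hS0 : S = 0 := hbS.resolve_right h2
    subst hS0
    push Not at h2
    have hb1 : b ≤ 0.24 := by nlinarith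
    have hd1 : d ≤ 0.2 := by nlinarith
    have hz1 : 0.996 ≤ z := by nlinarith
    have hτ2 : τ ^ 2 ≤ 1.88 ^ 2 := pow_le_pow_left₀ hτ0 hτ 2
    have h6 : Q ^ 2 ≤ (z + 0.997) ^ 2 := by nlinarith
    exact (abs_le_of_sq_le_sq' h6 (by positivity)).2

/-- the second point has no code -/
lemma scal_off (d b z Q p p' a a' c σ : ℝ) (hd : 0 ≤ d) (hb : 0 ≤ b) (hz : 0 ≤ z)
    (hp : 0 ≤ p) (hp1 : p ≤ 0.68) (ha : 0 ≤ a) (ha' : 0 ≤ a') (hσ0 : 0 ≤ σ)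
    (hbb : b ^ 2 = p ^ 2 + p' ^ 2) (hσ : p ^ 2 + a ^ 2 ≤ σ ^ 2) (hσ1 : σ ^ 2 ≤ 1)
    (hoff : p' ^ 2 + a' ^ 2 ≤ 0.48 ^ 2) (hc : Ramp c σ)
    (hQ : Q ^ 2 ≤ (d + b) ^ 2 + (a + a') ^ 2)
    (hZ : d ^ 2 + c ^ 2 - 0.0004 * c ≤ z ^ 2) : Q ≤ z + 0.997 := by
  have ha1 : a' ≤ 0.48 := by nlinarith [sq_nonneg p']
  have haσ : a ≤ σ := by nlinarith [sq_nonneg p]
  rcases hc with ⟨h1, h2⟩ | ⟨h1, h2, h3⟩ | ⟨h1, h2, h3⟩
  · subst h2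
    refine tri2 d b 0 (a + a') z Q (a + a') hd hb le_rfl (by positivity) hz (by positivity)
      (by linarith) hQ (by nlinarith) ?_
    have : σ ^ 2 ≤ 0.48 ^ 2 := pow_le_pow_left₀ hσ0 h1 2
    nlinarith [mul_le_mul (haσ.trans h1) ha1 ha' (by norm_num : (0 : ℝ) ≤ 0.48)]
  · refine tri2 d b (c - 0.0003) (a' + 0.064) z Q (a + a') hd hb (by linarith) (by positivity) hz
      (by positivity) (by linarith) hQ (by nlinarith) (by nlinarith)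
  · by_cases h4 : a ≤ 0.7
    · exact tri2 d b 0.7 a' z Q (a + a') hd hb (by norm_num) ha' hz
        (by positivity) (by linarith) hQ (by nlinarith) (by nlinarith)
    · push Not at h4
      refine tri2 d b 0.7 (a - 0.7 + a') z Q (a + a') hd hb (by norm_num) (by linarith) hz
        (by positivity) (by linarith) hQ (by nlinarith) ?_
      nlinarith [mul_le_mul_of_nonneg_left ha1 (by linarith : (0 : ℝ) ≤ a - 0.7)]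

lemma surv_le (p s a σ M : ℝ) (hps : 0 < s → p = 0.68) (hM : 0.68 ≤ M)
    (h : (p + s) ^ 2 + a ^ 2 = σ ^ 2) (hσ : σ ^ 2 ≤ M ^ 2) : s ≤ M - 0.68 := by
  by_contra hh
  push Not at hh
  have := hps (by linarith)
  subst this
  nlinarith [sq_nonneg a]

lemma mono_c (c c' : ℝ) (h1 : 0.417 ≤ c') (h : c' ≤ c) :
    c' ^ 2 - 0.0804 * c' ≤ c ^ 2 - 0.0804 * c := by nlinarith

lemma aux_b2 (σ' : ℝ) (h1 : 0.48 < σ') : σ' ^ 2 + 0.01 ≤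
    2 * (1.2 * σ' - 0.159) ^ 2 - 0.0808 * (1.2 * σ' - 0.159) - 0.0002 := by nlinarith

lemma aux_b3 (p p' a a' C σ' : ℝ) (hpa : p ^ 2 + a ^ 2 ≤ 1) (hpa' : p' ^ 2 + a' ^ 2 ≤ σ' ^ 2)
    (hC : C ^ 2 = σ' ^ 2 + 0.01) (h1 : a' ≤ C) (h4 : C < a) :
    p ^ 2 + p' ^ 2 + (a - C + a') ^ 2 ≤ 0.994 := by
  nlinarith [mul_le_mul_of_nonneg_left h1 (by linarith : (0 : ℝ) ≤ a - C)]

lemma aux_b4 (c' s : ℝ) (h1 : 0.417 ≤ c') (h2 : c' ≤ 0.705) (hs : 0 ≤ s) (hs3 : s ≤ 0.32) :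
    0.1 - 1.36 * s ≤ c' ^ 2 - 2 * c' * (s + 0.0002) := by
  nlinarith [mul_nonneg hs (by linarith : (0 : ℝ) ≤ 0.705 - c'), sq_nonneg (c' - 0.6)]

lemma aux_b5 (c s : ℝ) (h1 : 0.417 ≤ c) (hs : s ≤ 0.04) :
    c ^ 2 - 0.0804 * c ≤ c ^ 2 - 2 * c * (s + 0.0002) ∧ 0.14 ≤ c ^ 2 - 0.0804 * c := by
  constructor <;> nlinarith

/-- the second point has a code of partial length -/
lemma scal_part (d b z Q p p' s s' a a' c c' σ σ' : ℝ) (hd : 0 ≤ d) (hb : 0 ≤ b) (hz : 0 ≤ z)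
    (hp : 0 ≤ p) (hp1 : p ≤ 0.68) (hp' : 0 ≤ p') (hs : 0 ≤ s) (hs' : 0 ≤ s')
    (hps : 0 < s → p = 0.68) (hps' : 0 < s' → p' = 0.68)
    (ha : 0 ≤ a) (ha' : 0 ≤ a') (hbb : b ^ 2 = p ^ 2 + p' ^ 2)
    (hσ : (p + s) ^ 2 + a ^ 2 = σ ^ 2) (hσ' : (p' + s') ^ 2 + a' ^ 2 = σ' ^ 2) (hσ1 : σ ^ 2 ≤ 1)
    (h1 : 0.48 < σ') (h2 : σ' ≤ 0.72) (h3 : c' = 1.2 * σ' - 0.159) (hle : σ' ≤ σ) (hc : Ramp c σ)
    (hQ : Q ^ 2 ≤ (d + b) ^ 2 + (a + a') ^ 2)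
    (hZ : d ^ 2 + c ^ 2 + c' ^ 2 - 2 * c * (s' + 0.0002) - 2 * c' * (s + 0.0002) - 0.0002
      ≤ z ^ 2) : Q ≤ z + 0.997 := by
  have hσ2 : σ' ^ 2 ≤ 0.72 ^ 2 := pow_le_pow_left₀ (by linarith) h2 2
  have hs4 : s' ≤ 0.04 := by
    have := surv_le p' s' a' σ' 0.72 hps' (by norm_num) hσ' hσ2
    linarith
  have hs3 : s ≤ 0.32 := by
    have := surv_le p s a σ 1 hps (by norm_num) hσ (by linarith)
    linarith
  have hc1 : 0.417 ≤ c' := by linarith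
  have hc2 : c' ≤ 0.705 := by linarith
  have hcc : c' ≤ c := by
    rcases hc with ⟨g1, -⟩ | ⟨g1, g2, g3⟩ | ⟨g1, g2, g3⟩ <;> linarith
  have m1 := mul_nonneg hp' hs'
  have m2 := mul_nonneg hp hs
  have m3 := sq_nonneg s'
  have m4 := sq_nonneg s
  have hpa' : p' ^ 2 + a' ^ 2 ≤ σ' ^ 2 := by linarith [add_sq p' s']
  have hpa : p ^ 2 + a ^ 2 ≤ 1 := by linarith [add_sq p s]
  have ha1 : a' ≤ σ' :=
    (abs_le_of_sq_le_sq' (by linarith [sq_nonneg p']) (by linarith : 0 ≤ σ')).2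
  have hp2 : p ^ 2 ≤ 0.68 ^ 2 := pow_le_pow_left₀ hp hp1 2
  obtain ⟨e1, e1'⟩ := aux_b5 c s' (hc1.trans hcc) hs4
  have key : ∀ C : ℝ, 0 ≤ C → a ≤ C → d ^ 2 + C ^ 2 ≤ z ^ 2 → Q ≤ z + 0.997 := fun C h0 hC hh =>
    tri2 d b C a' z Q (a + a') hd hb h0 ha' hz (by positivity) (by linarith) hQ hh (by linarith)
  rcases hs.eq_or_lt with h0 | h0
  · subst h0
    have e2 := aux_b2 σ' h1
    rw [← h3] at e2
    have e3 := mono_c c c' hc1 hcc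
    obtain ⟨C, hC0, hC2⟩ : ∃ C : ℝ, 0 ≤ C ∧ C ^ 2 = σ' ^ 2 + 0.01 :=
      ⟨Real.sqrt (σ' ^ 2 + 0.01), Real.sqrt_nonneg _, Real.sq_sqrt (by positivity)⟩
    have hCσ : σ' ≤ C := (abs_le_of_sq_le_sq' (by linarith) hC0).2
    have hh : d ^ 2 + C ^ 2 ≤ z ^ 2 := by linarith
    by_cases h4 : a ≤ C
    · exact key C hC0 h4 hh
    · push Not at h4
      refine tri2 d b C (a - C + a') z Q (a + a') hd hb hC0 (by linarith) hz (by positivity)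
        (by linarith) hQ hh ?_
      rw [hbb]
      exact aux_b3 p p' a a' C σ' hpa hpa' hC2 (ha1.trans hCσ) h4
  · have hp3 := hps h0
    subst hp3
    refine key a ha le_rfl ?_
    have e6 : (0.68 + s : ℝ) ^ 2 = 0.4624 + 1.36 * s + s ^ 2 := by ring
    rcases hc with ⟨g1, -⟩ | ⟨g1, g2, g3⟩ | ⟨g1, g2, g3⟩
    · linarith
    · have hσ3 : σ ^ 2 ≤ 0.72 ^ 2 := pow_le_pow_left₀ (by linarith) g2 2
      have hs5 : s ≤ 0.04 := by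
        have := surv_le 0.68 s a σ 0.72 hps (by norm_num) hσ hσ3
        linarith
      obtain ⟨e3, e4⟩ := aux_b5 c' s hc1 hs5
      linarith
    · have e4 := mono_c c 0.705 (by norm_num) g2
      have e5 := aux_b4 c' s hc1 hc2 hs hs3
      linarith

end Pool.Agent.Lib.MP_fcccf2_gt.CL
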