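import Mathlib
import Pool.Agent.Lib.MP_fcccf2_gt.CL.Hat
import Pool.Agent.Lib.MP_fcccf2_gt.CL.Scal

set_option autoImplicit false

namespace Pool.Agent.Lib.MP_fcccf2_gt.CL

open scoped RealInnerProductSpace

variable {ι : Type} [Fintype ι] [DecidableEq ι]

/-- `S` and `c` are an admissible code set and code length at the point `(u, t)`. -/
structure Code (u : V ι) (t c : ℝ) (S : Finset ι) : Prop where
  ball : ‖u‖ ^ 2 + t ^ 2 ≤ 1
  ne : S.Nonempty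
  card : S.card ≤ 10 ^ 8
  neu : ‖res S (TT u)‖ ≤ eps
  ramp : Ramp c (sig u t)

lemma Ramp.nonneg {c σ : ℝ} (h : Ramp c σ) : 0 ≤ c := by
  rcases h with ⟨-, h⟩ | ⟨h1, -, h⟩ | ⟨-, h, -⟩ <;> linarith

lemma Ramp.le {c σ : ℝ} (h : Ramp c σ) : c ≤ 0.7072 := by
  rcases h with ⟨-, h⟩ | ⟨-, h1, h⟩ | ⟨-, -, h⟩ <;> linarith

lemma dd_nonneg (u : V ι) (t : ℝ) (u' : V ι) (t' : ℝ) : 0 ≤ dd u t u' t' := Real.sqrt_nonneg _

lemma dd_sq (u : V ι) (t : ℝ) (u' : V ι) (t' : ℝ) :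
    dd u t u' t' ^ 2 = ‖u - u'‖ ^ 2 + (t - t') ^ 2 := Real.sq_sqrt (by positivity)

lemma dd_comm (u : V ι) (t : ℝ) (u' : V ι) (t' : ℝ) : dd u t u' t' = dd u' t' u t := by
  unfold dd
  rw [norm_sub_rev, ← neg_sub t' t, neg_sq]

lemma norm_le_dd (u : V ι) (t : ℝ) (u' : V ι) (t' : ℝ) : ‖u - u'‖ ≤ dd u t u' t' :=
  Real.le_sqrt_of_sq_le (by nlinarith [sq_nonneg (t - t')])

lemma abs_le_dd (u : V ι) (t : ℝ) (u' : V ι) (t' : ℝ) : |t - t'| ≤ dd u t u' t' :=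
  Real.le_sqrt_of_sq_le (by rw [sq_abs]; nlinarith [sq_nonneg ‖u - u'‖])

lemma dd_le_add (u : V ι) (t : ℝ) (u' : V ι) (t' : ℝ) : dd u t u' t' ≤ ‖u - u'‖ + |t - t'| := by
  refine Real.sqrt_le_iff.2 ⟨by positivity, ?_⟩
  nlinarith [sq_abs (t - t'), mul_nonneg (norm_nonneg (u - u')) (abs_nonneg (t - t'))]

lemma dd_sq_le (u : V ι) (t : ℝ) (u' : V ι) (t' : ℝ) (h : ‖u‖ ^ 2 + t ^ 2 ≤ 1)
    (h' : ‖u'‖ ^ 2 + t' ^ 2 ≤ 1) : dd u t u' t' ^ 2 ≤ 4 - ‖u + u'‖ ^ 2 := by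
  rw [dd_sq, norm_sub_sq_real, norm_add_sq_real]
  nlinarith [sq_nonneg (t + t')]

lemma dd_le_two (u : V ι) (t : ℝ) (u' : V ι) (t' : ℝ) (h : ‖u‖ ^ 2 + t ^ 2 ≤ 1)
    (h' : ‖u'‖ ^ 2 + t' ^ 2 ≤ 1) : dd u t u' t' ≤ 2 := by
  have := dd_sq_le u t u' t' h h'
  nlinarith [sq_nonneg ‖u + u'‖, dd_nonneg u t u' t']

lemma dd_tri (u : V ι) (t : ℝ) (u' : V ι) (t' : ℝ) (u'' : V ι) (t'' : ℝ) :
    dd u t u'' t'' ≤ dd u t u' t' + dd u' t' u'' t'' := by
  have h1 := dd_sq u t u' t'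
  have h2 := dd_sq u' t' u'' t''
  have h3 := dd_nonneg u t u' t'
  have h4 := dd_nonneg u' t' u'' t''
  have h5 : ‖u - u''‖ ≤ ‖u - u'‖ + ‖u' - u''‖ := norm_sub_le_norm_sub_add_norm_sub _ _ _
  refine Real.sqrt_le_iff.2 ⟨by positivity, ?_⟩
  have h6 : ‖u - u''‖ ^ 2 ≤ (‖u - u'‖ + ‖u' - u''‖) ^ 2 := pow_le_pow_left₀ (norm_nonneg _) h5 2
  have h7 : (‖u - u'‖ * ‖u' - u''‖ + (t - t') * (t' - t'')) ^ 2 ≤
      (dd u t u' t' * dd u' t' u'' t'') ^ 2 := by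
    rw [mul_pow, h1, h2]
    nlinarith [sq_nonneg (‖u - u'‖ * (t' - t'') - ‖u' - u''‖ * (t - t'))]
  have h8 := (abs_le_of_sq_le_sq' h7 (by positivity)).2
  nlinarith

lemma sig_sq (u : V ι) (t : ℝ) : (‖PP u‖ + ss u) ^ 2 + |t| ^ 2 = sig u t ^ 2 := by
  unfold sig ss
  rw [Real.sq_sqrt (by positivity), sq_abs]
  ring

lemma sig_nonneg (u : V ι) (t : ℝ) : 0 ≤ sig u t := Real.sqrt_nonneg _

lemma sig_sq_le (u : V ι) (t : ℝ) (h : ‖u‖ ^ 2 + t ^ 2 ≤ 1) : sig u t ^ 2 ≤ 1 := by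
  unfold sig
  rw [Real.sq_sqrt (by positivity)]
  have := pow_le_pow_left₀ (norm_nonneg _) (norm_vv_le u) 2
  linarith

lemma norm_PP_le (u : V ι) : ‖PP u‖ ≤ 0.68 := by
  rw [norm_PP]
  exact (min_le_right _ _).trans (by norm_num [rr])

lemma PP_of_ss (u : V ι) (h : 0 < ss u) : ‖PP u‖ = 0.68 := by
  rw [norm_PP_of_ss_pos u h]
  norm_num [rr]

lemma inner_TT_ind_le (u : V ι) (S : Finset ι) (h : S.Nonempty) (hc : S.card ≤ 10 ^ 8) :
    ⟪TT u, ind S⟫ ≤ ss u + 0.0001 := by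
  have h1 := inner_TT_le u (ind S) (ind_nonneg S) (norm_ind S h).le
  rw [sum_ind] at h1
  have h2 : Real.sqrt S.card ≤ 10 ^ 4 := by
    refine Real.sqrt_le_iff.2 ⟨by positivity, ?_⟩
    have : (S.card : ℝ) ≤ 10 ^ 8 := by exact_mod_cast hc
    linarith
  unfold eta at h1
  linarith

lemma Code.abs_inner {u : V ι} {t c : ℝ} {S : Finset ι} (h : Code u t c S) :
    |⟪TT u, ind S⟫| ≤ 0.0001 :=
  ((abs_inner_ind_le S _).trans h.neu).trans (by norm_num [eps])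

lemma exists_b (u u' : V ι) : ∃ b : ℝ, 0 ≤ b ∧ b ^ 2 = ‖PP u‖ ^ 2 + ‖PP u'‖ ^ 2 ∧
    ‖u - u'‖ ≤ ‖TT u - TT u'‖ + b := by
  refine ⟨Real.sqrt (‖PP u‖ ^ 2 + ‖PP u'‖ ^ 2), Real.sqrt_nonneg _,
    Real.sq_sqrt (by positivity), ?_⟩
  have e : u - u' = (TT u - TT u') + (PP u - PP u') := by
    unfold TT
    abel
  have h1 : ‖PP u - PP u'‖ ≤ Real.sqrt (‖PP u‖ ^ 2 + ‖PP u'‖ ^ 2) :=
    Real.le_sqrt_of_sq_le (norm_sub_sq_le_of_nonneg _ _ (PP_nonneg u) (PP_nonneg u'))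
  rw [e]
  exact (norm_add_le _ _).trans (by linarith)

lemma expandZ {F : Type} [NormedAddCommGroup F] [InnerProductSpace ℝ F] (T T' e e' : F)
    (c c' : ℝ) (he : ‖e‖ = 1) (he' : ‖e'‖ = 1) :
    ‖(T + c • e) - (T' + c' • e')‖ ^ 2 = ‖T - T'‖ ^ 2 + c ^ 2 + c' ^ 2 - 2 * c * c' * ⟪e, e'⟫ +
        2 * c * (⟪T, e⟫ - ⟪T', e⟫) - 2 * c' * (⟪T, e'⟫ - ⟪T', e'⟫) ∧
      ⟪(T + c • e) - (T' + c' • e'), e - e'⟫ = (⟪T, e⟫ - ⟪T', e⟫) - (⟪T, e'⟫ - ⟪T', e'⟫) +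
        (c + c') * (1 - ⟪e, e'⟫) := by
  have h1 : ⟪e, e⟫ = 1 := by rw [real_inner_self_eq_norm_sq, he]; norm_num
  have h2 : ⟪e', e'⟫ = 1 := by rw [real_inner_self_eq_norm_sq, he']; norm_num
  constructor
  · rw [← real_inner_self_eq_norm_sq, ← real_inner_self_eq_norm_sq]
    simp only [inner_sub_left, inner_sub_right, inner_add_left, inner_add_right,
      real_inner_smul_left, real_inner_smul_right, h1, h2, real_inner_comm e T,
      real_inner_comm e' T, real_inner_comm e T', real_inner_comm e' T', real_inner_comm e e',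
      real_inner_comm T T']
    ring
  · simp only [inner_sub_left, inner_sub_right, inner_add_left, real_inner_smul_left, h1, h2,
      real_inner_comm e e']
    ring

/-- Lower inequality for two points with the same code set. -/
lemma lff_same {u u' : V ι} {t t' c c' : ℝ} {S : Finset ι} (h : Code u t c S)
    (h' : Code u' t' c' S) (ht : |t - t'| ≤ 0.01) :
    dd u t u' t' ≤ ‖(TT u + c • ind S) - (TT u' + c' • ind S)‖ + 0.997 := by
  obtain ⟨b, hb0, hb, hub⟩ := exists_b u u'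
  have hb1 : b ≤ 0.962 := by
    have h1 := pow_le_pow_left₀ (norm_nonneg _) (norm_PP_le u) 2
    have h2 := pow_le_pow_left₀ (norm_nonneg _) (norm_PP_le u') 2
    nlinarith
  have he := norm_ind S h.ne
  have e := (expandZ (TT u) (TT u') (ind S) (ind S) c c' he he).1
  rw [real_inner_self_eq_norm_sq, he] at e
  have a1 := abs_le.1 h.abs_inner
  have a2 := abs_le.1 h'.abs_inner
  set x := ⟪TT u, ind S⟫ - ⟪TT u', ind S⟫ with hx
  have hx2 : x ^ 2 ≤ 0.0002 ^ 2 := sq_le_sq' (by linarith [a1.1, a2.2]) (by linarith [a1.2, a2.1])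
  set z := ‖(TT u + c • ind S) - (TT u' + c' • ind S)‖ with hz
  have hz0 : 0 ≤ z := norm_nonneg _
  have h3 : ‖TT u - TT u'‖ ^ 2 ≤ (z + 0.0002) ^ 2 := by nlinarith [sq_nonneg (c - c' + x)]
  have h4 := (abs_le_of_sq_le_sq' h3 (by positivity)).2
  have h5 := dd_le_add u t u' t'
  linarith

lemma lff_half {u u' : V ι} {t t' c c' : ℝ} {S S' : Finset ι} (h : Code u t c S)
    (h' : Code u' t' c' S') (hS : ⟪ind S, ind S'⟫ ≤ eps) (ht : |t - t'| ≤ 1.88)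
    (hle : sig u' t' ≤ sig u t) :
    dd u t u' t' ≤ ‖(TT u + c • ind S) - (TT u' + c' • ind S')‖ + 0.997 := by
  obtain ⟨b, hb0, hb, hub⟩ := exists_b u u'
  have he := norm_ind S h.ne
  have he' := norm_ind S' h'.ne
  obtain ⟨e1, e2⟩ := expandZ (TT u) (TT u') (ind S) (ind S') c c' he he'
  have a1 := (abs_le.1 h.abs_inner).1
  have a2 := (abs_le.1 h'.abs_inner).1
  have a3 := inner_TT_ind_le u' S h.ne h.card
  have a4 := inner_TT_ind_le u S' h'.ne h'.card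
  have c0 := h.ramp.nonneg
  have c1 := h.ramp.le
  have c0' := h'.ramp.nonneg
  have c1' := h'.ramp.le
  have hS1 : ⟪ind S, ind S'⟫ ≤ 0.0001 := hS.trans (by norm_num [eps])
  have hS0 : 0 ≤ ⟪ind S, ind S'⟫ := inner_nonneg_of_nonneg _ _ (ind_nonneg S) (ind_nonneg S')
  have hcs := real_inner_le_norm ((TT u + c • ind S) - (TT u' + c' • ind S')) (ind S - ind S')
  have hee : ‖ind S - ind S'‖ ≤ 1.4143 := by
    have := norm_sub_sq_le_of_nonneg _ _ (ind_nonneg S) (ind_nonneg S')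
    rw [he, he'] at this
    nlinarith [norm_nonneg (ind S - ind S')]
  set z := ‖(TT u + c • ind S) - (TT u' + c' • ind S')‖ with hz
  set d := ‖TT u - TT u'‖ with hd
  have hz0 : 0 ≤ z := norm_nonneg _
  have hd0 : 0 ≤ d := norm_nonneg _
  have m1 : c * (-(ss u' + 0.0002)) ≤ c * (⟪TT u, ind S⟫ - ⟪TT u', ind S⟫) :=
    mul_le_mul_of_nonneg_left (by linarith) c0
  have m2 : c' * (⟪TT u, ind S'⟫ - ⟪TT u', ind S'⟫) ≤ c' * (ss u + 0.0002) :=
    mul_le_mul_of_nonneg_left (by linarith) c0'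
  have m3 : c * c' * ⟪ind S, ind S'⟫ ≤ c * c' * 0.0001 :=
    mul_le_mul_of_nonneg_left hS1 (mul_nonneg c0 c0')
  have m4 : c * c' ≤ 0.7072 * 0.7072 := mul_le_mul c1 c1' c0' (by norm_num)
  have hub2 : ‖u - u'‖ ^ 2 ≤ (d + b) ^ 2 := pow_le_pow_left₀ (norm_nonneg _) hub 2
  have hQ1 : dd u t u' t' ^ 2 ≤ (d + b) ^ 2 + |t - t'| ^ 2 := by
    rw [dd_sq, sq_abs]
    linarith
  have hQ2 : dd u t u' t' ^ 2 ≤ (d + b) ^ 2 + (|t| + |t'|) ^ 2 := by
    have := pow_le_pow_left₀ (abs_nonneg _) (abs_sub t t') 2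
    linarith
  have s0 := ss_nonneg u
  have s0' := ss_nonneg u'
  have p0 := norm_nonneg (PP u)
  have p0' := norm_nonneg (PP u')
  have q1 := sig_sq u t
  have q1' := sig_sq u' t'
  have q2 := sig_sq_le u t h.ball
  have q2' := sig_sq_le u' t' h'.ball
  rcases h'.ramp with ⟨g1, g2⟩ | ⟨g1, g2, g3⟩ | ⟨g1, g2, g3⟩
  · have g4 : sig u' t' ^ 2 ≤ 0.48 ^ 2 := pow_le_pow_left₀ (sig_nonneg _ _) g1 2
    have g5 : ss u' = 0 := by
      refine le_antisymm (not_lt.1 fun hh => ?_) s0'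
      rw [PP_of_ss u' hh] at q1'
      nlinarith [sq_nonneg |t'|]
    subst g2
    rw [g5] at m1 q1'
    refine scal_off d b z _ ‖PP u‖ ‖PP u'‖ |t| |t'| c (sig u t) hd0 hb0 hz0 p0 (norm_PP_le u)
      (abs_nonneg _) (abs_nonneg _) (sig_nonneg _ _) hb ?_ q2 (by linarith) h.ramp hQ2
      (by linarith)
    linarith [add_sq ‖PP u‖ (ss u), mul_nonneg p0 s0, sq_nonneg (ss u)]
  · exact scal_part d b z _ ‖PP u‖ ‖PP u'‖ (ss u) (ss u') |t| |t'| c c' (sig u t) (sig u' t')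
      hd0 hb0 hz0 p0 (norm_PP_le u) p0' s0 s0' (PP_of_ss u) (PP_of_ss u') (abs_nonneg _)
      (abs_nonneg _) hb q1 q1' q2 g1 g2 g3 hle h.ramp hQ2 (by linarith)
  · have g4 : 0.705 ≤ c := by
      rcases h.ramp with ⟨k1, -⟩ | ⟨-, k2, k3⟩ | ⟨-, k2, -⟩ <;> linarith
    have s1 : ss u ≤ 0.32 := by
      have := surv_le _ _ _ _ 1 (PP_of_ss u) (by norm_num) q1 (by linarith)
      linarith
    have s1' : ss u' ≤ 0.32 := by
      have := surv_le _ _ _ _ 1 (PP_of_ss u') (by norm_num) q1' (by linarith)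
      linarith
    have k1 : ∀ w : V ι, ‖PP w‖ * ss w = 0.68 * ss w := fun w => by
      rcases (ss_nonneg w).eq_or_lt with hh | hh
      · rw [← hh]; ring
      · rw [PP_of_ss w hh]
    have k2 : ∀ w : V ι, ss w ≤ 0.32 → ss w = 0 ∨ 0.03 + 0.523 * ss w ≤ 0.563 * ‖PP w‖ ^ 2 :=
      fun w hw => by
        rcases (ss_nonneg w).eq_or_lt with hh | hh
        · exact Or.inl hh.symm
        · rw [PP_of_ss w hh]
          exact Or.inr (by linarith)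
    have b1 := budget u
    have b1' := budget u'
    have hb1 := h.ball
    have hb1' := h'.ball
    have hdn : d ^ 2 ≤ 2 * ‖TT u‖ ^ 2 + 2 * ‖TT u'‖ ^ 2 := by
      have := pow_le_pow_left₀ hd0 (norm_sub_le (TT u) (TT u')) 2
      linarith [sq_nonneg (‖TT u‖ - ‖TT u'‖), add_sq ‖TT u‖ ‖TT u'‖, sub_sq ‖TT u‖ ‖TT u'‖]
    have m5 : c * ss u' ≤ 0.7072 * ss u' := mul_le_mul_of_nonneg_right c1 s0'
    have m6 : c' * ss u ≤ 0.7072 * ss u := mul_le_mul_of_nonneg_right c1' s0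
    have m7 : 0.705 ^ 2 ≤ c ^ 2 := pow_le_pow_left₀ (by norm_num) g4 2
    have m8 : 0.705 ^ 2 ≤ c' ^ 2 := pow_le_pow_left₀ (by norm_num) g2 2
    have m9 : 1.41 * 0.9999 ≤ (c + c') * (1 - ⟪ind S, ind S'⟫) :=
      mul_le_mul (by linarith) (by linarith) (by norm_num) (by linarith)
    have m10 : z * ‖ind S - ind S'‖ ≤ z * 1.4143 := mul_le_mul_of_nonneg_left hee hz0
    refine scal_full d b z _ (ss u + ss u') |t - t'| hd0 hb0 (by linarith) (by linarith)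
      (dd_le_two _ _ _ _ hb1 hb1') hQ1 (abs_nonneg _) ht ?_ (by linarith) ?_
    · rw [sq_abs]
      linarith [k1 u, k1 u', sq_nonneg (t + t'), add_sq t t', sub_sq t t']
    · rcases k2 u s1 with k3 | k3 <;> rcases k2 u' s1' with k4 | k4
      · exact Or.inl (by linarith)
      · exact Or.inr (by linarith [sq_nonneg ‖PP u‖])
      · exact Or.inr (by linarith [sq_nonneg ‖PP u'‖])
      · exact Or.inr (by linarith)

/-- Lower inequality for two points with almost orthogonal codes. -/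
lemma lff_diff {u u' : V ι} {t t' c c' : ℝ} {S S' : Finset ι} (h : Code u t c S)
    (h' : Code u' t' c' S') (hS : ⟪ind S, ind S'⟫ ≤ eps) (ht : |t - t'| ≤ 1.88) :
    dd u t u' t' ≤ ‖(TT u + c • ind S) - (TT u' + c' • ind S')‖ + 0.997 := by
  rcases le_total (sig u' t') (sig u t) with hle | hle
  · exact lff_half h h' hS ht hle
  · rw [dd_comm, norm_sub_rev]
    exact lff_half h' h (by rwa [real_inner_comm]) (by rwa [abs_sub_comm]) hle

lemma ramp_norm (c σ s : ℝ) (h : Ramp c σ) (hon : 0.48 < σ) (hs : 0 ≤ s)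
    (hk : s = 0 ∨ s ≤ σ - 0.68) : s ^ 2 + c ^ 2 + 0.015 ≤ σ ^ 2 := by
  rcases h with ⟨g1, -⟩ | ⟨g1, g2, g3⟩ | ⟨g1, g2, g3⟩
  · linarith
  · have : s ≤ 0.04 := by rcases hk with hk | hk <;> linarith
    subst g3
    nlinarith [mul_nonneg (by linarith : (0 : ℝ) ≤ σ - 0.48) (by linarith : (0 : ℝ) ≤ 0.72 - σ)]
  · have h1 : s ≤ σ - 0.68 := by rcases hk with hk | hk <;> linarith
    have h2 := pow_le_pow_left₀ hs h1 2
    have h3 := pow_le_pow_left₀ (by linarith) g3 2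
    nlinarith

/-- A point with a nonzero code is mapped well inside the unit ball. -/
lemma Code.norm_le {u : V ι} {t c : ℝ} {S : Finset ι} (h : Code u t c S) (hon : 0.48 < sig u t) :
    ‖TT u + c • ind S‖ ≤ 0.995 := by
  have he := norm_ind S h.ne
  have a1 := (abs_le.1 h.abs_inner).2
  have c0 := h.ramp.nonneg
  have c1 := h.ramp.le
  have e : ‖TT u + c • ind S‖ ^ 2 = ‖TT u‖ ^ 2 + 2 * (c * ⟪TT u, ind S⟫) + c ^ 2 := by
    rw [norm_add_sq_real, real_inner_smul_right, norm_smul, he, Real.norm_eq_abs, mul_one, sq_abs]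
  have m1 : c * ⟪TT u, ind S⟫ ≤ c * 0.0001 := mul_le_mul_of_nonneg_left a1 c0
  have b1 := budget u
  have q1 := sig_sq u t
  rw [sq_abs] at q1
  have hb := h.ball
  have s0 := ss_nonneg u
  have key : ss u ^ 2 + c ^ 2 + 0.015 ≤ sig u t ^ 2 := by
    have k1 : ss u = 0 ∨ ss u ≤ sig u t - 0.68 := by
      rcases s0.eq_or_lt with hh | hh
      · exact Or.inl hh.symm
      · rw [PP_of_ss u hh] at q1
        have := (abs_le_of_sq_le_sq' (by linarith [sq_nonneg t] :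
          (0.68 + ss u) ^ 2 ≤ sig u t ^ 2) (sig_nonneg u t)).2
        exact Or.inr (by linarith)
    exact ramp_norm c _ _ h.ramp hon s0 k1
  have h3 : ‖TT u + c • ind S‖ ^ 2 ≤ 0.995 ^ 2 := by linarith [add_sq ‖PP u‖ (ss u)]
  exact (abs_le_of_sq_le_sq' h3 (by norm_num)).2

end Pool.Agent.Lib.MP_fcccf2_gt.CL
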