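import Mathlib
import Pool.Agent.Lib.MP_fcccf2_gt.CL.Hat

set_option autoImplicit false

namespace Pool.Agent.Lib.MP_fcccf2_gt.CL

open scoped RealInnerProductSpace

variable {ι : Type} [Fintype ι] [DecidableEq ι]

lemma proj_le_of_sq {a b : ℝ} (h : a ^ 2 ≤ b ^ 2) (hb : 0 ≤ b) : a ≤ b :=
  le_trans (le_abs_self a) (abs_le_of_sq_le_sq h hb)

lemma proj_Pr_apply (bl : ι → Bool) (y : V ι) (i : ι) :
    Pr bl y i = y i - (∑ j ∈ blk bl (bl i), y j) / (blk bl (bl i)).card := rfl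

lemma proj_mem_blk (bl : ι → Bool) (b : Bool) (i : ι) : i ∈ blk bl b ↔ bl i = b := by
  simp [blk]

lemma proj_sum_split (bl : ι → Bool) (g : ι → ℝ) :
    ∑ i, g i = ∑ i ∈ blk bl true, g i + ∑ i ∈ blk bl false, g i := by
  have h := Finset.sum_filter_add_sum_filter_not Finset.univ (fun i => bl i = true) g
  have e : (Finset.univ.filter fun i => ¬ bl i = true) = blk bl false := by
    ext i
    simp [blk]
  rw [e] at h
  exact h.symm

lemma proj_card_mul (S : Finset ι) (g : ι → ℝ) :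
    (S.card : ℝ) * ((∑ j ∈ S, g j) / S.card) = ∑ j ∈ S, g j := by
  rcases S.eq_empty_or_nonempty with rfl | h
  · simp
  · have : (S.card : ℝ) ≠ 0 := Nat.cast_ne_zero.mpr h.card_pos.ne'
    field_simp

lemma proj_card_mul_sq (S : Finset ι) (g : ι → ℝ) :
    (S.card : ℝ) * ((∑ j ∈ S, g j) / S.card) ^ 2 = (∑ j ∈ S, g j) ^ 2 / S.card := by
  have h := proj_card_mul S g
  calc (S.card : ℝ) * ((∑ j ∈ S, g j) / S.card) ^ 2
      = ((S.card : ℝ) * ((∑ j ∈ S, g j) / S.card)) * ((∑ j ∈ S, g j) / S.card) := by ring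
    _ = (∑ j ∈ S, g j) * ((∑ j ∈ S, g j) / S.card) := by rw [h]
    _ = (∑ j ∈ S, g j) ^ 2 / S.card := by ring

lemma proj_block_sq (bl : ι → Bool) (y : V ι) (b : Bool) :
    ∑ i ∈ blk bl b, (Pr bl y i) ^ 2 =
      ∑ i ∈ blk bl b, (y i) ^ 2 - (∑ j ∈ blk bl b, y j) ^ 2 / (blk bl b).card := by
  have e : ∀ i ∈ blk bl b, (Pr bl y i) ^ 2 =
      (y i) ^ 2 - 2 * ((∑ j ∈ blk bl b, y j) / (blk bl b).card) * y i +
        ((∑ j ∈ blk bl b, y j) / (blk bl b).card) ^ 2 := by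
    intro i hi
    rw [proj_Pr_apply, (proj_mem_blk bl b i).mp hi]
    ring
  rw [Finset.sum_congr rfl e, Finset.sum_add_distrib, Finset.sum_sub_distrib, ← Finset.mul_sum,
    Finset.sum_const, nsmul_eq_mul, proj_card_mul_sq]
  ring

lemma proj_block_diff (bl : ι → Bool) (y : V ι) (b : Bool) :
    ∑ i ∈ blk bl b, ((y - Pr bl y) i) ^ 2 = (∑ j ∈ blk bl b, y j) ^ 2 / (blk bl b).card := by
  have e : ∀ i ∈ blk bl b, ((y - Pr bl y) i) ^ 2 =
      ((∑ j ∈ blk bl b, y j) / (blk bl b).card) ^ 2 := by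
    intro i hi
    rw [PiLp.sub_apply, proj_Pr_apply, (proj_mem_blk bl b i).mp hi]
    ring
  rw [Finset.sum_congr rfl e, Finset.sum_const, nsmul_eq_mul, proj_card_mul_sq]

lemma proj_norm_sq (bl : ι → Bool) (y : V ι) :
    ‖Pr bl y‖ ^ 2 = ‖y‖ ^ 2 - (∑ j ∈ blk bl true, y j) ^ 2 / (blk bl true).card -
      (∑ j ∈ blk bl false, y j) ^ 2 / (blk bl false).card := by
  rw [EuclideanSpace.real_norm_sq_eq, EuclideanSpace.real_norm_sq_eq, proj_sum_split bl,
    proj_sum_split bl (fun i => (y i) ^ 2), proj_block_sq, proj_block_sq]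
  ring

lemma proj_diff_sq (bl : ι → Bool) (y : V ι) :
    ‖y - Pr bl y‖ ^ 2 = (∑ j ∈ blk bl true, y j) ^ 2 / (blk bl true).card +
      (∑ j ∈ blk bl false, y j) ^ 2 / (blk bl false).card := by
  rw [EuclideanSpace.real_norm_sq_eq, proj_sum_split bl, proj_block_diff, proj_block_diff]

lemma Pr_add (bl : ι → Bool) (y y' : V ι) : Pr bl (y + y') = Pr bl y + Pr bl y' := by
  ext i
  simp only [PiLp.add_apply, proj_Pr_apply, Finset.sum_add_distrib]
  ring

lemma Pr_sub (bl : ι → Bool) (y y' : V ι) : Pr bl (y - y') = Pr bl y - Pr bl y' := by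
  ext i
  simp only [PiLp.sub_apply, proj_Pr_apply, Finset.sum_sub_distrib]
  ring

lemma Pr_smul (bl : ι → Bool) (a : ℝ) (y : V ι) : Pr bl (a • y) = a • Pr bl y := by
  ext i
  simp only [PiLp.smul_apply, proj_Pr_apply, smul_eq_mul, ← Finset.mul_sum]
  ring

lemma InH_Pr (bl : ι → Bool) (y : V ι) : InH bl (Pr bl y) := by
  intro b
  have e : ∀ i ∈ blk bl b, Pr bl y i = y i - (∑ j ∈ blk bl b, y j) / (blk bl b).card := by
    intro i hi
    rw [proj_Pr_apply, (proj_mem_blk bl b i).mp hi]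
  rw [Finset.sum_congr rfl e, Finset.sum_sub_distrib, Finset.sum_const, nsmul_eq_mul,
    proj_card_mul, sub_self]

lemma Pr_of_InH (bl : ι → Bool) (y : V ι) (h : InH bl y) : Pr bl y = y := by
  ext i
  rw [proj_Pr_apply, h (bl i), zero_div, sub_zero]

lemma InH_add (bl : ι → Bool) (y y' : V ι) (h : InH bl y) (h' : InH bl y') :
    InH bl (y + y') := by
  intro b
  simp only [PiLp.add_apply, Finset.sum_add_distrib]
  rw [h b, h' b, add_zero]

lemma InH_smul (bl : ι → Bool) (a : ℝ) (y : V ι) (h : InH bl y) : InH bl (a • y) := by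
  intro b
  simp only [PiLp.smul_apply, smul_eq_mul, ← Finset.mul_sum]
  rw [h b, mul_zero]

lemma InH_res (bl : ι → Bool) (b : Bool) (y : V ι) (h : InH bl y) :
    InH bl (res (blk bl b) y) := by
  intro b'
  have e0 : ∀ i, res (blk bl b) y i = if i ∈ blk bl b then y i else 0 := fun _ => rfl
  by_cases hb : b' = b
  · subst hb
    rw [← h b']
    refine Finset.sum_congr rfl fun i hi => ?_
    rw [e0, if_pos hi]
  · refine Finset.sum_eq_zero fun i hi => ?_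
    rw [e0, if_neg]
    intro hi'
    exact hb (((proj_mem_blk bl b' i).mp hi).symm.trans ((proj_mem_blk bl b i).mp hi'))

lemma norm_Pr_le (bl : ι → Bool) (y : V ι) : ‖Pr bl y‖ ≤ ‖y‖ := by
  have h := proj_norm_sq bl y
  have h1 : 0 ≤ (∑ j ∈ blk bl true, y j) ^ 2 / ((blk bl true).card : ℝ) := by positivity
  have h2 : 0 ≤ (∑ j ∈ blk bl false, y j) ^ 2 / ((blk bl false).card : ℝ) := by positivity
  exact proj_le_of_sq (by linarith) (norm_nonneg y)

/-- for a nonnegative vector the projection moves by at most `l1 norm / 10 ^ 22` -/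
lemma norm_sub_Pr_le (bl : ι → Bool) (hB : Big bl) (y : V ι) (hy : ∀ i, 0 ≤ y i) :
    ‖y - Pr bl y‖ ≤ (∑ i, y i) / 10 ^ 22 := by
  have h := proj_diff_sq bl y
  have hc : ∀ b, (10 : ℝ) ^ 44 ≤ ((blk bl b).card : ℝ) := fun b => by exact_mod_cast hB b
  have hs : ∀ b, 0 ≤ ∑ j ∈ blk bl b, y j := fun b => Finset.sum_nonneg fun j _ => hy j
  have hd : ∀ b, (∑ j ∈ blk bl b, y j) ^ 2 / ((blk bl b).card : ℝ) ≤
      (∑ j ∈ blk bl b, y j) ^ 2 / 10 ^ 44 := fun b =>
    div_le_div_of_nonneg_left (sq_nonneg _) (by positivity) (hc b)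
  have hsp := proj_sum_split bl (fun i => y i)
  have h0 : 0 ≤ (∑ i, y i) / 10 ^ 22 := div_nonneg (Finset.sum_nonneg fun i _ => hy i) (by positivity)
  refine proj_le_of_sq ?_ h0
  have hm := mul_nonneg (hs true) (hs false)
  have h1 := hd true
  have h2 := hd false
  have e : ((∑ i, y i) / 10 ^ 22) ^ 2 = ((∑ j ∈ blk bl true, y j) ^ 2 +
      2 * ((∑ j ∈ blk bl true, y j) * (∑ j ∈ blk bl false, y j)) +
      (∑ j ∈ blk bl false, y j) ^ 2) / 10 ^ 44 := by
    rw [hsp]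
    ring
  rw [h, e, add_div, add_div]
  have h3 : 0 ≤ 2 * ((∑ j ∈ blk bl true, y j) * (∑ j ∈ blk bl false, y j)) / (10 : ℝ) ^ 44 := by
    positivity
  linarith

lemma norm_Pr_single (bl : ι → Bool) (i : ι) :
    ‖Pr bl (ind {i})‖ ^ 2 = 1 - 1 / ((blk bl (bl i)).card : ℝ) := by
  have e0 : ∀ j, (ind {i} : V ι) j = if j = i then 1 else 0 := by
    intro j
    show (if j ∈ ({i} : Finset ι) then 1 / Real.sqrt (({i} : Finset ι).card : ℝ) else 0) = _
    simp
  have es : ∀ b, ∑ j ∈ blk bl b, (ind {i} : V ι) j = if bl i = b then 1 else 0 := by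
    intro b
    simp only [e0, Finset.sum_ite_eq', proj_mem_blk]
  rw [proj_norm_sq, norm_ind _ (Finset.singleton_nonempty i), es, es]
  cases bl i <;> simp

/-- `Pr (TT u)` is within `eta / 100` of `TT u` -/
lemma norm_Pr_TT_sub (bl : ι → Bool) (hB : Big bl) (u : V ι) (hu : InH bl u) (h1 : ‖u‖ ≤ 1) :
    ‖Pr bl (TT u) - TT u‖ ≤ eta / 100 := by
  have e : Pr bl (TT u) - TT u = PP u - Pr bl (PP u) := by
    unfold TT
    rw [Pr_sub, Pr_of_InH bl u hu]
    abel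
  rw [e]
  have h2 := norm_sub_Pr_le bl hB (PP u) (PP_nonneg u)
  have h3 := sum_PP_le u
  have h4 : ‖u‖ ^ 2 ≤ 1 := pow_le_one₀ (norm_nonneg u) h1
  have h5 : ‖u‖ ^ 2 / (4 * eta) ≤ 10 ^ 10 / 4 := by
    unfold eta
    rw [div_le_iff₀ (by positivity)]
    exact h4.trans (by norm_num)
  have h6 : (∑ i, PP u i) / 10 ^ 22 ≤ (10 ^ 10 / 4) / 10 ^ 22 :=
    div_le_div_of_nonneg_right (h3.trans h5) (by positivity)
  have h7 : ((10 : ℝ) ^ 10 / 4) / 10 ^ 22 ≤ eta / 100 := by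
    unfold eta
    norm_num
  linarith

lemma norm_Pr_ind_sub (bl : ι → Bool) (hB : Big bl) (S : Finset ι) (hS : S.card ≤ 10 ^ 8) :
    ‖Pr bl (ind S) - ind S‖ ≤ eta / 100 := by
  rw [norm_sub_rev]
  have h2 := norm_sub_Pr_le bl hB (ind S) (ind_nonneg S)
  rw [sum_ind] at h2
  have h3 : (S.card : ℝ) ≤ 10 ^ 8 := by exact_mod_cast hS
  have h4 : Real.sqrt S.card ≤ 10 ^ 4 := by
    rw [Real.sqrt_le_iff]
    refine ⟨by positivity, h3.trans (by norm_num)⟩
  have h6 : Real.sqrt S.card / 10 ^ 22 ≤ (10 : ℝ) ^ 4 / 10 ^ 22 :=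
    div_le_div_of_nonneg_right h4 (by positivity)
  have h7 : (10 : ℝ) ^ 4 / 10 ^ 22 ≤ eta / 100 := by
    unfold eta
    norm_num
  linarith

end Pool.Agent.Lib.MP_fcccf2_gt.CL
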