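import Mathlib
import Pool.Agent.Lib.MP_fcccf2_gt.CL.Proj

set_option autoImplicit false
set_option linter.unusedSectionVars false
set_option linter.unusedVariables false

namespace Pool.Agent.Lib.MP_fcccf2_gt.CL

open scoped RealInnerProductSpace

variable {ι : Type} [Fintype ι] [DecidableEq ι]

lemma pb_inner (a b : V ι) : ⟪a, b⟫ = ∑ i, a i * b i := by
  rw [PiLp.inner_apply]
  exact Finset.sum_congr rfl fun i _ => by simp [mul_comm]

lemma pb_inner_Pr (bl : ι → Bool) (x z : V ι) (hz : InH bl z) : ⟪Pr bl x, z⟫ = ⟪x, z⟫ := by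
  rw [pb_inner, pb_inner]
  simp only [Pr, sub_mul, Finset.sum_sub_distrib, sub_eq_self]
  rw [← Finset.sum_fiberwise Finset.univ bl]
  refine Finset.sum_eq_zero fun b _ => ?_
  have h : ∀ i ∈ Finset.univ.filter fun i => bl i = b,
      (∑ j ∈ blk bl (bl i), x j) / (blk bl (bl i)).card * z i =
        (∑ j ∈ blk bl b, x j) / (blk bl b).card * z i := fun i hi => by
    rw [(Finset.mem_filter.1 hi).2]
  rw [Finset.sum_congr rfl h, ← Finset.mul_sum]
  exact mul_eq_zero_of_right _ (hz b)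

lemma pb_inner_res (S : Finset ι) (x z : V ι) : ⟪res S x, z⟫ = ⟪x, res S z⟫ := by
  rw [pb_inner, pb_inner]
  refine Finset.sum_congr rfl fun i _ => ?_
  simp only [res]
  split_ifs <;> simp

lemma pb_res_res (S : Finset ι) (x : V ι) : res S (res S x) = res S x := by
  ext i
  simp only [res]
  split_ifs <;> rfl

lemma pb_inner_single (j : ι) (z : V ι) : ⟪ind {j}, z⟫ = z j := by
  rw [pb_inner]
  simp [ind]

lemma pb_mem (bl : ι → Bool) (b : Bool) (i : ι) : i ∈ blk bl b ↔ bl i = b := by simp [blk]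

/-- The coordinates of the projected truncation. -/
lemma pb_coord (bl : ι → Bool) (hB : Big bl) (b : Bool) (u : V ι) (hu : InH bl u)
    (h1 : ‖u‖ ≤ 0.5) : ∃ a : ℝ, 0 ≤ a ∧ a ≤ eps * eta ∧ a * (blk bl b).card = ∑ i ∈ blk bl b, vv u i ∧
      ∀ i, bl i = b → res (blk bl b) (Pr bl (mm u)) i = min (u i) eta + a := by
  have hq : (10 : ℝ) ^ 44 ≤ (blk bl b).card := by exact_mod_cast hB b
  have hq0 : (0 : ℝ) < (blk bl b).card := lt_of_lt_of_le (by positivity) hq
  have h0 : 0 ≤ ∑ i ∈ blk bl b, vv u i := Finset.sum_nonneg fun i _ => vv_nonneg u i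
  have h2 : ∑ i ∈ blk bl b, vv u i ≤ ∑ i, vv u i :=
    Finset.sum_le_sum_of_subset_of_nonneg (Finset.subset_univ _) fun i _ _ => vv_nonneg u i
  have h3 := sum_vv_le u
  have h4 : ‖u‖ ^ 2 / (4 * eta) ≤ 10 ^ 10 := by
    rw [div_le_iff₀ (by unfold eta; positivity)]
    unfold eta
    nlinarith [norm_nonneg u]
  have h5 : ∑ i ∈ blk bl b, mm u i = -∑ i ∈ blk bl b, vv u i := by
    have h6 := hu b
    nth_rewrite 1 [← mm_add_vv u] at h6
    simp only [PiLp.add_apply, Finset.sum_add_distrib] at h6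
    linarith
  refine ⟨(∑ i ∈ blk bl b, vv u i) / (blk bl b).card, by positivity, ?_,
    div_mul_cancel₀ _ hq0.ne', fun i hi => ?_⟩
  · rw [div_le_iff₀ hq0]
    unfold eps eta
    linarith
  · simp only [res, Pr, (pb_mem bl b i).2 hi, if_true, hi, h5]
    simp only [mm]
    ring

/-- One block of the polar pair. -/
lemma pole_block (bl : ι → Bool) (hB : Big bl) (b : Bool) (u u' : V ι) (hu : InH bl u)
    (hu' : InH bl u') (h1 : ‖u‖ ≤ 0.5) (h1' : ‖u'‖ ≤ 0.5) (j : ι) (hj : bl j = b)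
    (hmax : ∀ k, bl k = b → u' k ≤ u' j) (c : ℝ) (hc0 : 0 ≤ c) (hc : c ≤ 0.71) :
    ‖c • Pr bl (ind {j})‖ ^ 2 - 0.4 * ‖res (blk bl b) (u + u')‖ ^ 2 ≤
      ‖c • Pr bl (ind {j}) + res (blk bl b) (Pr bl (TT u')) -
        shr (res (blk bl b) (Pr bl (TT u)))‖ ^ 2 := by
  have hr : (0.5 : ℝ) ≤ rr := by unfold rr; norm_num
  have heta : 0 < eta := by unfold eta; positivity
  have heps : 0 < eps := by unfold eps; positivity
  have heps1 : eps ≤ 1 := by unfold eps; norm_num
  rw [(TT_of_small u (((norm_vv_le u).trans h1).trans hr)).1,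
    (TT_of_small u' (((norm_vv_le u').trans h1').trans hr)).1]
  obtain ⟨a, ha0, ha1, -, hy⟩ := pb_coord bl hB b u hu h1
  obtain ⟨a', ha0', -, ha2', hy'⟩ := pb_coord bl hB b u' hu' h1'
  have hHy := InH_res bl b _ (InH_Pr bl (mm u))
  have hHy' := InH_res bl b _ (InH_Pr bl (mm u'))
  have hyy : ‖res (blk bl b) (Pr bl (mm u))‖ ≤ ‖res (blk bl b) u‖ := by
    have e1 : ‖res (blk bl b) (Pr bl (mm u))‖ ^ 2 =
        ⟪res (blk bl b) (mm u), res (blk bl b) (Pr bl (mm u))⟫ := by
      rw [← real_inner_self_eq_norm_sq, pb_inner_res, pb_res_res, pb_inner_Pr _ _ _ hHy,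
        pb_inner_res, pb_res_res]
    have e2 := real_inner_le_norm (res (blk bl b) (mm u)) (res (blk bl b) (Pr bl (mm u)))
    have e3 : ‖res (blk bl b) (mm u)‖ ≤ ‖res (blk bl b) u‖ := by
      refine (abs_le_of_sq_le_sq' ?_ (norm_nonneg _)).2
      rw [EuclideanSpace.real_norm_sq_eq, EuclideanSpace.real_norm_sq_eq]
      refine Finset.sum_le_sum fun i _ => ?_
      simp only [res, mm]
      split_ifs
      · rcases le_total (u i) eta with h | h
        · rw [min_eq_left h]
        · rw [min_eq_right h]; nlinarith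
      · exact le_rfl
    by_contra hh
    have hh := not_le.1 hh
    nlinarith [norm_nonneg (res (blk bl b) u)]
  have huy : 0 ≤ ⟪res (blk bl b) u, res (blk bl b) (Pr bl (mm u))⟫ := by
    rw [real_inner_comm, pb_inner_res, pb_res_res, pb_inner_Pr _ _ _ (InH_res bl b u hu), pb_inner]
    refine Finset.sum_nonneg fun i _ => ?_
    simp only [res, mm]
    split_ifs
    · rcases le_total (u i) eta with h | h
      · rw [min_eq_left h]; exact mul_self_nonneg _
      · rw [min_eq_right h]; exact mul_nonneg heta.le (by linarith)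
    · simp
  have hj0 : 0 ≤ u' j := by
    by_contra hh
    have h2 : ∑ i ∈ blk bl b, u' i < ∑ i ∈ blk bl b, (0 : ℝ) :=
      Finset.sum_lt_sum_of_nonempty ⟨j, (pb_mem bl b j).2 hj⟩ fun i hi =>
        (hmax i ((pb_mem bl b i).1 hi)).trans_lt (not_le.1 hh)
    rw [hu' b] at h2
    simp at h2
  have hcase : u' j ≤ eta → res (blk bl b) (Pr bl (mm u')) = res (blk bl b) u' := by
    intro h
    have h2 : ∑ i ∈ blk bl b, vv u' i = 0 := Finset.sum_eq_zero fun i hi => by
      have := hmax i ((pb_mem bl b i).1 hi)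
      simp only [vv]
      exact max_eq_right (by linarith)
    have hq : (10 : ℝ) ^ 44 ≤ (blk bl b).card := by exact_mod_cast hB b
    have hq0 : (0 : ℝ) < (blk bl b).card := lt_of_lt_of_le (by positivity) hq
    have h3 : a' = 0 := by
      rw [h2] at ha2'
      exact (mul_eq_zero.1 ha2').resolve_right hq0.ne'
    ext i
    by_cases hi : bl i = b
    · rw [hy' i hi, h3, add_zero, min_eq_left ((hmax i hi).trans h)]
      simp only [res, (pb_mem bl b i).2 hi, if_true]
    · simp only [res, (pb_mem bl b i).not.2 hi, if_false]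
  have hyj := hy j hj
  have hyj' := hy' j hj
  have hy1 : ‖res (blk bl b) (Pr bl (mm u))‖ ≤ 1 := by linarith [norm_res_le (blk bl b) u]
  have ew : res (blk bl b) (u + u') = res (blk bl b) u + res (blk bl b) u' := by
    ext i
    simp only [res, PiLp.add_apply]
    split_ifs <;> simp
  rw [ew]
  unfold shr
  generalize res (blk bl b) (Pr bl (mm u)) = y at *
  generalize res (blk bl b) (Pr bl (mm u')) = y' at *
  set θ := 1 - min 1 (eps / ‖y‖) with hθ
  have hθ0 : 0 ≤ θ := by linarith [min_le_left 1 (eps / ‖y‖)]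
  have hθ1 : θ ≤ 1 := by
    have : 0 ≤ min 1 (eps / ‖y‖) := le_min zero_le_one (by positivity)
    linarith
  have hz : InH bl (y' + (-θ) • y) := InH_add bl _ _ hHy' (InH_smul bl _ _ hHy)
  have e : c • Pr bl (ind {j}) + y' - θ • y = c • Pr bl (ind {j}) + (y' + (-θ) • y) := by module
  rw [e, norm_add_sq_real (c • Pr bl (ind {j})), real_inner_smul_left, pb_inner_Pr _ _ _ hz,
    pb_inner_single]
  have ez : (y' + (-θ) • y) j = y' j - θ * y j := by
    simp only [PiLp.add_apply, PiLp.smul_apply, smul_eq_mul]; ring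
  rw [ez]
  have hy'0 : 0 ≤ y' j := by
    rw [hyj']; exact add_nonneg (le_min hj0 heta.le) ha0'
  have hyj2 : y j ≤ eta + a := by rw [hyj]; linarith [min_le_right (u j) eta]
  have easy : 0 ≤ y' j - θ * y j → ‖c • Pr bl (ind {j})‖ ^ 2 -
      0.4 * ‖res (blk bl b) u + res (blk bl b) u'‖ ^ 2 ≤
      ‖c • Pr bl (ind {j})‖ ^ 2 + 2 * (c * (y' j - θ * y j)) + ‖y' + (-θ) • y‖ ^ 2 := fun h => by
    have := mul_nonneg hc0 h
    linarith [sq_nonneg ‖res (blk bl b) u + res (blk bl b) u'‖, sq_nonneg ‖y' + (-θ) • y‖]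
  rcases le_or_gt ‖y‖ eps with hs | hs
  · refine easy ?_
    rcases (norm_nonneg y).eq_or_lt with h | h
    · rw [norm_eq_zero.1 h.symm]; simpa using hy'0
    · rw [hθ, min_eq_left ((one_le_div h).2 hs)]; simpa using hy'0
  have hθ2 : θ ≤ 1 - eps := by
    have : eps ≤ min 1 (eps / ‖y‖) :=
      le_min heps1 ((le_div_iff₀ (heps.trans hs)).2 (by nlinarith))
    linarith
  have hθy : θ * y j ≤ (1 - eps) * (eta + a) :=
    (mul_le_mul_of_nonneg_left hyj2 hθ0).trans
      (mul_le_mul_of_nonneg_right hθ2 (by positivity))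
  have hθy2 : θ * y j ≤ eta := by nlinarith [mul_nonneg heps.le ha0]
  rcases le_total eta (u' j) with h | h
  · refine easy ?_
    rw [hyj', min_eq_right h]
    linarith
  · rw [hcase h]
    have h2 : eps ^ 2 ≤ ‖res (blk bl b) u + θ • y‖ ^ 2 := by
      rw [norm_add_sq_real, real_inner_smul_right]
      have h3 := pow_le_pow_left₀ heps.le (hs.le.trans hyy) 2
      have h4 := mul_nonneg hθ0 huy
      linarith [sq_nonneg ‖θ • y‖]
    have h3 : ‖res (blk bl b) u + θ • y‖ ≤ ‖res (blk bl b) u + res (blk bl b) u'‖ +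
        ‖res (blk bl b) u' + (-θ) • y‖ := by
      refine le_of_eq_of_le ?_ (norm_sub_le _ _)
      congr 1
      module
    have h4 := pow_le_pow_left₀ (norm_nonneg _) h3 2
    have h5 : -(0.71 * eta) ≤ c * (res (blk bl b) u' j - θ * y j) := by
      rw [hcase h] at hy'0
      nlinarith
    have h6 : 2 * (0.71 * eta) ≤ 2 / 7 * eps ^ 2 := by unfold eta eps; norm_num
    nlinarith [sq_nonneg (2 * ‖res (blk bl b) u + res (blk bl b) u'‖ -
      5 * ‖res (blk bl b) u' + (-θ) • y‖)]

end Pool.Agent.Lib.MP_fcccf2_gt.CL
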