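import Mathlib
import Pool.Agent.Lib.MP_fcccf2_gt.CL.PoleB

set_option autoImplicit false

namespace Pool.Agent.Lib.MP_fcccf2_gt.CL

open scoped RealInnerProductSpace

variable {ι : Type} [Fintype ι] [DecidableEq ι]

omit [DecidableEq ι] in
lemma pole1_coef (y : V ι) : 0 ≤ min 1 (eps / ‖y‖) ∧ min 1 (eps / ‖y‖) ≤ 1 ∧
    min 1 (eps / ‖y‖) * ‖y‖ = min ‖y‖ eps := by
  have he : 0 < eps := by unfold eps; positivity
  refine ⟨le_min zero_le_one (by positivity), min_le_left _ _, ?_⟩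
  rcases (norm_nonneg y).eq_or_lt with h | h
  · rw [← h, mul_zero, min_eq_left he.le]
  · rw [min_mul_of_nonneg _ _ h.le, one_mul, div_mul_cancel₀ _ h.ne']

lemma shr_lip (y y' : V ι) : ‖shr y - shr y'‖ ≤ ‖y - y'‖ := by
  obtain ⟨a0, a1, a2⟩ := pole1_coef y
  obtain ⟨b0, b1, b2⟩ := pole1_coef y'
  unfold shr
  generalize min 1 (eps / ‖y‖) = a at *
  generalize min 1 (eps / ‖y'‖) = b at *
  refine (sq_le_sq₀ (norm_nonneg _) (norm_nonneg _)).1 ?_
  rw [norm_sub_sq_real, norm_sub_sq_real, norm_smul, norm_smul, real_inner_smul_left,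
    real_inner_smul_right, Real.norm_of_nonneg (sub_nonneg.2 a1),
    Real.norm_of_nonneg (sub_nonneg.2 b1)]
  have h1 := sub_nonneg.2 (real_inner_le_norm y y')
  have h2 : (1 - a) * (1 - b) ≤ 1 := mul_le_one₀ (by linarith) (by linarith) (by linarith)
  have h3 : ((1 - a) * ‖y‖ - (1 - b) * ‖y'‖) ^ 2 ≤ (‖y‖ - ‖y'‖) ^ 2 := by
    rw [sub_mul, sub_mul, one_mul, one_mul, a2, b2, sq_le_sq, abs_le]
    have h4 := le_abs_self (‖y‖ - ‖y'‖)
    have h5 := neg_abs_le (‖y‖ - ‖y'‖)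
    have h6 := abs_nonneg (‖y‖ - ‖y'‖)
    rcases min_cases ‖y‖ eps with h | h <;> rcases min_cases ‖y'‖ eps with h' | h' <;>
      constructor <;> linarith [h.1, h.2, h'.1, h'.2]
  nlinarith [mul_le_mul_of_nonneg_right h2 h1]

lemma norm_shr_sub (y : V ι) : ‖shr y - y‖ ≤ eps := by
  obtain ⟨a0, -, a2⟩ := pole1_coef y
  rw [shr, sub_smul, one_smul, sub_sub_cancel_left, norm_neg, norm_smul, Real.norm_of_nonneg a0, a2]
  exact min_le_right _ _

lemma pole1_blocks (bl : ι → Bool) (b : Bool) (y : V ι) :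
    ‖y‖ ^ 2 = ‖res (blk bl b) y‖ ^ 2 + ‖res (blk bl (!b)) y‖ ^ 2 := by
  rw [← norm_sq_blocks bl y]
  cases b
  · exact add_comm _ _
  · rfl

lemma pole1_same (bl : ι → Bool) (b : Bool) (u : V ι) :
    res (blk bl b) (capT bl b u) = res (blk bl b) (Pr bl (TT u)) := by
  ext k
  by_cases h : bl k = b <;> simp [capT, shr, res, blk, h]

lemma pole1_other (bl : ι → Bool) (b : Bool) (u : V ι) :
    res (blk bl (!b)) (capT bl b u) = shr (res (blk bl (!b)) (Pr bl (TT u))) := by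
  ext k
  by_cases h : bl k = b <;> simp [capT, shr, res, blk, h]

lemma capT_lip (bl : ι → Bool) (b : Bool) (u u' : V ι) :
    ‖capT bl b u - capT bl b u'‖ ≤ ‖u - u'‖ := by
  refine le_trans ?_ ((norm_Pr_le bl _).trans (TT_lip u u'))
  refine (sq_le_sq₀ (norm_nonneg _) (norm_nonneg _)).1 ?_
  rw [pole1_blocks bl b, pole1_blocks bl b (Pr bl _), Pr_sub, res_sub, res_sub, res_sub, res_sub,
    pole1_same, pole1_same, pole1_other, pole1_other]
  exact add_le_add_right (pow_le_pow_left₀ (norm_nonneg _) (shr_lip _ _) 2) _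

lemma capT_close (bl : ι → Bool) (b : Bool) (u : V ι) :
    ‖capT bl b u - Pr bl (TT u)‖ ≤ eps := by
  have h := res_add_res bl b (Pr bl (TT u))
  rw [capT]
  generalize res (blk bl b) (Pr bl (TT u)) = x at *
  generalize res (blk bl (!b)) (Pr bl (TT u)) = y at *
  rw [← h, add_sub_add_left_eq_sub]
  exact norm_shr_sub y

lemma InH_capT (bl : ι → Bool) (b : Bool) (u : V ι) : InH bl (capT bl b u) :=
  InH_add bl _ _ (InH_res bl b _ (InH_Pr bl _)) (InH_smul bl _ _ (InH_res bl _ _ (InH_Pr bl _)))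

lemma pole1_off (bl : ι → Bool) (i k : ι) (h : bl k ≠ bl i) : Pr bl (ind {i}) k = 0 := by
  have h1 : k ≠ i := fun e => h (e ▸ rfl)
  have h2 : ∑ l ∈ blk bl (bl k), ind {i} l = 0 := Finset.sum_eq_zero fun l hl => by
    have h3 : l ≠ i := fun e => h (e ▸ (Finset.mem_filter.1 hl).2.symm)
    simp [ind, h3]
  change ind {i} k - _ / _ = 0
  rw [h2]
  simp [ind, h1]

lemma pole1_res (bl : ι → Bool) (b : Bool) (u u' : V ι) (i j : ι) (hi : bl i = b)
    (hj : bl j = !b) (c : ℝ) :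
    res (blk bl b) ((c • Pr bl (ind {i}) + capT bl b u) - (c • Pr bl (ind {j}) + capT bl (!b) u')) =
      c • Pr bl (ind {i}) + res (blk bl b) (Pr bl (TT u)) -
        shr (res (blk bl b) (Pr bl (TT u'))) := by
  ext k
  by_cases h : bl k = b
  · have h1 := pole1_off bl j k (by rw [h, hj]; exact (Bool.not_ne_self b).symm)
    simp [capT, shr, res, blk, h, h1]
  · have h1 := pole1_off bl i k (hi ▸ h)
    simp [capT, shr, res, blk, h, h1]

/-- The polar pair. -/
theorem pole (bl : ι → Bool) (hB : Big bl) (u u' : V ι) (hu : InH bl u)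
    (hu' : InH bl u') (h1 : ‖u‖ ≤ 0.5) (h1' : ‖u'‖ ≤ 0.5) (i j : ι) (hi : bl i = true)
    (hj : bl j = false) (hmi : ∀ k, bl k = true → u k ≤ u i)
    (hmj : ∀ k, bl k = false → u' k ≤ u' j) (c : ℝ) (hc0 : 0 ≤ c) (hc : c ≤ 0.71) :
    c ^ 2 * (2 - 1 / ((blk bl true).card : ℝ) - 1 / ((blk bl false).card : ℝ)) -
        0.4 * ‖u + u'‖ ^ 2 ≤
      ‖(c • Pr bl (ind {i}) + capT bl true u) - (c • Pr bl (ind {j}) + capT bl false u')‖ ^ 2 := by
  have a1 := pole_block bl hB true u' u hu' hu h1' h1 i hi hmi c hc0 hc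
  have a2 := pole_block bl hB false u u' hu hu' h1 h1' j hj hmj c hc0 hc
  rw [← pole1_res bl true u u' i j hi hj, add_comm u'] at a1
  rw [← pole1_res bl false u' u j i hj hi, res_sub, norm_sub_rev, ← res_sub] at a2
  rw [norm_smul, mul_pow, norm_Pr_single, Real.norm_of_nonneg hc0] at a1 a2
  rw [hi, Bool.not_true] at a1
  rw [hj, Bool.not_false] at a2
  rw [← norm_sq_blocks bl (u + u'), ← norm_sq_blocks bl (_ - _)]
  linarith

end Pool.Agent.Lib.MP_fcccf2_gt.CL
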