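import Mathlib
import Pool.Agent.Lib.MP_fcccf2_gt.CL.LFF
import Pool.Agent.Lib.MP_fcccf2_gt.CL.Cross
import Pool.Agent.Lib.MP_fcccf2_gt.CL.Pole
import Pool.Agent.Lib.MP_fcccf2_gt.CL.Codes

set_option autoImplicit false

namespace Pool.Agent.Lib.MP_fcccf2_gt.CL

open scoped RealInnerProductSpace

variable {ι : Type} [Fintype ι] [DecidableEq ι]

/-- the hemisphere -/
noncomputable def side (t : ℝ) : Bool := decide (0 ≤ t)

/-- data of a point in a polar cap -/
def IsCap (bl : ι → Bool) (δ : ℝ) (u : V ι) (t c : ℝ) (S : Finset ι) (L : V ι) : Prop :=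
  0.88 ≤ |t| ∧ c ^ 2 = δ ^ 2 / 2 ∧ L = capT bl (side t) u ∧
    ∃ i, S = {i} ∧ bl i = side t ∧ ∀ k, bl k = side t → u k ≤ u i

/-- data of a point outside the polar caps -/
def IsMid (bl : ι → Bool) (I : Bool → ℕ → V ι → Finset ι) (u : V ι) (t c : ℝ) (S : Finset ι)
    (L : V ι) : Prop :=
  |t| < 0.88 ∧ c ≤ 0.705 ∧ L = Pr bl (TT u) ∧ S = I (side t) ⌊100 * |t|⌋₊ (TT u) ∧
    S.card = 10 ^ 8

structure Data (bl : ι → Bool) (δ : ℝ) (I : Bool → ℕ → V ι → Finset ι) (u : V ι) (t c : ℝ)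
    (S : Finset ι) (L : V ι) : Prop where
  inH : InH bl u
  code : Code u t c S
  sub : S ⊆ blk bl (side t)
  kind : IsCap bl δ u t c S L ∨ IsMid bl I u t c S L

lemma side_cases (t : ℝ) : (side t = true ∧ 0 ≤ t) ∨ (side t = false ∧ t ≤ 0) := by
  unfold side
  by_cases h : 0 ≤ t
  · exact Or.inl ⟨by simpa, h⟩
  · exact Or.inr ⟨by simpa using h, (not_le.1 h).le⟩

lemma abs_sub_of_side (t t' : ℝ) (h : side t = side t') : |t - t'| = abs (|t| - |t'|) := by
  rcases side_cases t with ⟨h1, h2⟩ | ⟨h1, h2⟩ <;> rcases side_cases t' with ⟨h3, h4⟩ | ⟨h3, h4⟩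
  · rw [abs_of_nonneg h2, abs_of_nonneg h4]
  · rw [h1, h3] at h; cases h
  · rw [h1, h3] at h; cases h
  · rw [abs_of_nonpos h2, abs_of_nonpos h4, ← abs_neg]
    congr 1
    ring

lemma norm_le_one_of_ball {u : V ι} {t : ℝ} (h : ‖u‖ ^ 2 + t ^ 2 ≤ 1) : ‖u‖ ≤ 1 ∧ |t| ≤ 1 :=
  ⟨by nlinarith [sq_nonneg t, norm_nonneg u], by
    rw [abs_le]; constructor <;> nlinarith [sq_nonneg ‖u‖]⟩

lemma norm_cap {u : V ι} {t : ℝ} (h : ‖u‖ ^ 2 + t ^ 2 ≤ 1) (ht : 0.88 ≤ |t|) : ‖u‖ ≤ 0.475 := by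
  have := pow_le_pow_left₀ (by norm_num) ht 2
  rw [sq_abs] at this
  nlinarith [norm_nonneg u]

lemma norm_TT_le (u : V ι) : ‖TT u‖ ≤ ‖u‖ := by
  have h := budget u
  have h1 := mul_nonneg (norm_nonneg (PP u)) (ss_nonneg u)
  exact (abs_le_of_sq_le_sq' (by nlinarith [sq_nonneg ‖PP u‖]) (norm_nonneg u)).2

lemma norm_res_single (i : ι) (y : V ι) : ‖res {i} y‖ = |y i| := by
  rw [EuclideanSpace.norm_eq, ← Real.sqrt_sq_eq_abs]
  congr 1
  simp [res]

lemma exists_ramp (σ : ℝ) : ∃ c, Ramp c σ ∧ c ≤ 0.705 := by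
  by_cases h1 : σ ≤ 0.48
  · exact ⟨0, Or.inl ⟨h1, rfl⟩, by norm_num⟩
  by_cases h2 : σ ≤ 0.72
  · exact ⟨_, Or.inr (Or.inl ⟨not_le.1 h1, h2, rfl⟩), by linarith⟩
  · exact ⟨0.705, Or.inr (Or.inr ⟨(not_le.1 h2).le, le_rfl, by norm_num⟩), le_rfl⟩

lemma floor_lt {t : ℝ} (h : |t| < 0.88) : ⌊100 * |t|⌋₊ < 100 :=
  (Nat.floor_lt (by positivity)).2 (by push_cast; linarith)

lemma exists_data (bl : ι → Bool) (hB : Big bl) (δ : ℝ) (h1 : 1 ≤ δ) (h2 : δ ≤ 1 + 1 / 1000000)
    (I : Bool → ℕ → V ι → Finset ι)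
    (hI : ∀ b l y, l < 100 → ‖y‖ ≤ 1 →
      I b l y ⊆ blk bl b ∧ (I b l y).card = 10 ^ 8 ∧ ‖res (I b l y) y‖ ≤ eps)
    (u : V ι) (t : ℝ) (hu : InH bl u) (h : ‖u‖ ^ 2 + t ^ 2 ≤ 1) :
    ∃ c S L, Data bl δ I u t c S L := by
  by_cases ht : 0.88 ≤ |t|
  · have hne : (blk bl (side t)).Nonempty :=
      Finset.card_pos.1 (lt_of_lt_of_le (by positivity) (hB _))
    obtain ⟨i, hi, hmax⟩ := Finset.exists_max_image _ (fun k => u k) hne
    have hi0 : 0 ≤ u i := by
      by_contra hh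
      have := Finset.sum_lt_sum_of_nonempty hne (f := fun k => u k) (g := fun _ => 0)
        fun k hk => lt_of_le_of_lt (hmax k hk) (not_le.1 hh)
      rw [hu] at this
      simp at this
    obtain ⟨c, hc0, hc⟩ : ∃ c : ℝ, 0 ≤ c ∧ c ^ 2 = δ ^ 2 / 2 :=
      ⟨Real.sqrt (δ ^ 2 / 2), Real.sqrt_nonneg _, Real.sq_sqrt (by positivity)⟩
    have hn := norm_cap h ht
    have hT := (TT_of_small u ((norm_vv_le u).trans (hn.trans (by norm_num [rr])))).1
    refine ⟨c, {i}, _, hu, ⟨h, by simp, by simp, ?_, Or.inr (Or.inr ⟨?_, ?_, ?_⟩)⟩, by simpa,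
      Or.inl ⟨ht, hc, rfl, i, rfl, (pb_mem _ _ _).1 hi, fun k hk => hmax k ((pb_mem _ _ _).2 hk)⟩⟩
    · rw [norm_res_single, hT]
      have e : mm u i = min (u i) eta := rfl
      have e0 : 0 ≤ min (u i) eta := le_min hi0 cr_eta_pos.le
      rw [e, abs_of_nonneg e0]
      exact (min_le_right _ _).trans (by norm_num [eta, eps])
    · have q := sig_sq u t
      have := (abs_le_of_sq_le_sq' (by linarith [sq_nonneg (‖PP u‖ + ss u)] :
        |t| ^ 2 ≤ sig u t ^ 2) (sig_nonneg u t)).2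
      linarith
    · exact (abs_le_of_sq_le_sq' (by nlinarith : (0.705 : ℝ) ^ 2 ≤ c ^ 2) hc0).2
    · exact (abs_le_of_sq_le_sq' (by nlinarith : c ^ 2 ≤ (0.7072 : ℝ) ^ 2) (by norm_num)).2
  · push Not at ht
    obtain ⟨c, hc, hc1⟩ := exists_ramp (sig u t)
    obtain ⟨k1, k2, k3⟩ := hI (side t) _ (TT u) (floor_lt ht)
      ((norm_TT_le u).trans (norm_le_one_of_ball h).1)
    exact ⟨c, _, _, hu, ⟨h, Finset.card_pos.1 (by rw [k2]; positivity), k2.le, k3, hc⟩, k1,
      Or.inr ⟨ht, hc1, rfl, rfl, k2⟩⟩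

section

variable {bl : ι → Bool} {δ : ℝ} {I : Bool → ℕ → V ι → Finset ι} {u u' L L' : V ι}
  {t t' c c' : ℝ} {S S' : Finset ι}

lemma Data.L_close (h : Data bl δ I u t c S L) : ‖L - Pr bl (TT u)‖ ≤ 0.0001 := by
  rcases h.kind with ⟨-, -, e, -⟩ | ⟨-, -, e, -⟩
  · rw [e]
    exact (capT_close _ _ _).trans (by norm_num [eps])
  · rw [e, sub_self, norm_zero]
    norm_num

lemma Data.inH_f (h : Data bl δ I u t c S L) : InH bl (c • Pr bl (ind S) + L) := by
  refine InH_add _ _ _ (InH_smul _ _ _ (InH_Pr _ _)) ?_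
  rcases h.kind with ⟨-, -, e, -⟩ | ⟨-, -, e, -⟩
  · rw [e]; exact InH_capT _ _ _
  · rw [e]; exact InH_Pr _ _

lemma Data.close (hB : Big bl) (h : Data bl δ I u t c S L) :
    ‖(c • Pr bl (ind S) + L) - (TT u + c • ind S)‖ ≤ 0.0002 := by
  have e : (c • Pr bl (ind S) + L) - (TT u + c • ind S) =
      c • (Pr bl (ind S) - ind S) + (L - Pr bl (TT u)) + (Pr bl (TT u) - TT u) := by
    rw [smul_sub]; abel
  have h1 := norm_Pr_ind_sub bl hB S h.code.card
  have h2 := norm_Pr_TT_sub bl hB u h.inH (norm_le_one_of_ball h.code.ball).1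
  have h3 := h.L_close
  have h4 : ‖c • (Pr bl (ind S) - ind S)‖ ≤ 1 * (eta / 100) := by
    rw [norm_smul, Real.norm_eq_abs, abs_of_nonneg h.code.ramp.nonneg]
    exact mul_le_mul (h.code.ramp.le.trans (by norm_num)) h1 (norm_nonneg _) (by norm_num)
  have h5 := norm_add₃_le (a := c • (Pr bl (ind S) - ind S)) (b := L - Pr bl (TT u))
    (c := Pr bl (TT u) - TT u)
  rw [e]
  unfold eta at *
  linarith

lemma Data.off (h1 : 1 ≤ δ) (h : Data bl δ I u t c S L) (hoff : sig u t ≤ 0.48) :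
    c • Pr bl (ind S) + L = Pr bl (TT u) := by
  have hc : c = 0 := by
    rcases h.code.ramp with ⟨-, g⟩ | ⟨g, -⟩ | ⟨g, -⟩
    · exact g
    · linarith
    · linarith
  rcases h.kind with ⟨-, e, -⟩ | ⟨-, -, e, -⟩
  · rw [hc] at e
    nlinarith
  · rw [hc, e, zero_smul, zero_add]

lemma Data.norm_f (hB : Big bl) (h1 : 1 ≤ δ) (h : Data bl δ I u t c S L) :
    ‖c • Pr bl (ind S) + L‖ ≤ 1 := by
  rcases le_or_gt (sig u t) 0.48 with hs | hs
  · rw [h.off h1 hs]
    exact (norm_Pr_le _ _).trans ((norm_TT_le u).trans (norm_le_one_of_ball h.code.ball).1)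
  · have k1 := h.code.norm_le hs
    have k2 := h.close hB
    have k3 := norm_le_norm_add_norm_sub' (c • Pr bl (ind S) + L) (TT u + c • ind S)
    linarith

lemma code_diff (h : Code u t c S) (h' : Code u' t' c' S') :
    ‖c • Pr bl (ind S) - c' • Pr bl (ind S')‖ ^ 2 ≤ c ^ 2 + c' ^ 2 := by
  rw [← Pr_smul, ← Pr_smul, ← Pr_sub]
  refine (pow_le_pow_left₀ (norm_nonneg _) (norm_Pr_le _ _) 2).trans ?_
  have := norm_sub_sq_le_of_nonneg (c • ind S) (c' • ind S')
    (fun i => mul_nonneg h.ramp.nonneg (ind_nonneg S i))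
    (fun i => mul_nonneg h'.ramp.nonneg (ind_nonneg S' i))
  rwa [norm_smul, norm_smul, norm_ind S h.ne, norm_ind S' h'.ne, mul_one, mul_one,
    Real.norm_eq_abs, Real.norm_eq_abs, sq_abs, sq_abs] at this

lemma split_diff (a b a' b' : V ι) : ‖(a + b) - (a' + b')‖ ≤ ‖a - a'‖ + ‖b - b'‖ := by
  rw [add_sub_add_comm]
  exact norm_add_le _ _

lemma ff_upper_mid (h1 : 1 ≤ δ) (h : Data bl δ I u t c S L) (h' : Data bl δ I u' t' c' S' L')
    (hc : c ≤ 0.705 ∨ c' ≤ 0.705) :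
    ‖(c • Pr bl (ind S) + L) - (c' • Pr bl (ind S') + L')‖ ≤ dd u t u' t' + δ := by
  have k1 := code_diff (bl := bl) h.code h'.code
  have c0 := h.code.ramp.nonneg
  have c0' := h'.code.ramp.nonneg
  have c1 := pow_le_pow_left₀ c0 h.code.ramp.le 2
  have c1' := pow_le_pow_left₀ c0' h'.code.ramp.le 2
  have k2 : c ^ 2 + c' ^ 2 ≤ 0.999 ^ 2 := by
    rcases hc with hc | hc
    · have := pow_le_pow_left₀ c0 hc 2
      linarith
    · have := pow_le_pow_left₀ c0' hc 2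
      linarith
  have k3 := (abs_le_of_sq_le_sq' (k1.trans k2) (by norm_num)).2
  have k4 := split_diff (c • Pr bl (ind S)) L (c' • Pr bl (ind S')) L'
  have k5 : ‖Pr bl (TT u) - Pr bl (TT u')‖ ≤ dd u t u' t' := by
    rw [← Pr_sub]
    exact (norm_Pr_le _ _).trans ((TT_lip _ _).trans (norm_le_dd _ _ _ _))
  have k6 := norm_sub_le_norm_sub_add_norm_sub L (Pr bl (TT u)) L'
  have k7 := norm_sub_le_norm_sub_add_norm_sub (Pr bl (TT u)) (Pr bl (TT u')) L'
  have k8 := h.L_close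
  have k9 := h'.L_close
  rw [norm_sub_rev] at k9
  linarith

lemma ff_upper (hB : Big bl) (h1 : 1 ≤ δ) (h : Data bl δ I u t c S L)
    (h' : Data bl δ I u' t' c' S' L') :
    ‖(c • Pr bl (ind S) + L) - (c' • Pr bl (ind S') + L')‖ ≤ dd u t u' t' + δ := by
  rcases h.kind with ⟨a1, a2, a3, -⟩ | ⟨-, a, -⟩
  · rcases h'.kind with ⟨b1, b2, b3, -⟩ | ⟨-, a, -⟩
    · by_cases hs : side t = side t'
      · have k1 := code_diff (bl := bl) h.code h'.code
        have k3 := (abs_le_of_sq_le_sq' (k1.trans (by linarith : _ ≤ δ ^ 2)) (by linarith)).2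
        have k4 := split_diff (c • Pr bl (ind S)) L (c' • Pr bl (ind S')) L'
        have k5 : ‖L - L'‖ ≤ dd u t u' t' := by
          rw [a3, b3, hs]
          exact (capT_lip _ _ _ _).trans (norm_le_dd _ _ _ _)
        linarith
      · have k1 := h.norm_f hB h1
        have k2 := h'.norm_f hB h1
        have k3 := norm_sub_le (c • Pr bl (ind S) + L) (c' • Pr bl (ind S') + L')
        have k4 := abs_le_dd u t u' t'
        have k5 : 1 ≤ |t - t'| := by
          rcases side_cases t with ⟨g1, g2⟩ | ⟨g1, g2⟩ <;>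
            rcases side_cases t' with ⟨g3, g4⟩ | ⟨g3, g4⟩
          · exact absurd (g1.trans g3.symm) hs
          · rw [abs_of_nonneg g2] at a1
            rw [abs_of_nonpos g4] at b1
            exact le_abs.2 (Or.inl (by linarith))
          · rw [abs_of_nonpos g2] at a1
            rw [abs_of_nonneg g4] at b1
            exact le_abs.2 (Or.inr (by linarith))
          · exact absurd (g1.trans g3.symm) hs
        linarith
    · exact ff_upper_mid h1 h h' (Or.inr a)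
  · exact ff_upper_mid h1 h h' (Or.inl a)

lemma lower_of_hat (hB : Big bl) (h1 : 1 ≤ δ) (h : Data bl δ I u t c S L)
    (h' : Data bl δ I u' t' c' S' L')
    (k : dd u t u' t' ≤ ‖(TT u + c • ind S) - (TT u' + c' • ind S')‖ + 0.997) :
    dd u t u' t' ≤ ‖(c • Pr bl (ind S) + L) - (c' • Pr bl (ind S') + L')‖ + δ := by
  have k1 := h.close hB
  have k2 := h'.close hB
  rw [norm_sub_rev] at k1
  have k6 := norm_sub_le_norm_sub_add_norm_sub (TT u + c • ind S) (c • Pr bl (ind S) + L)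
    (TT u' + c' • ind S')
  have k7 := norm_sub_le_norm_sub_add_norm_sub (c • Pr bl (ind S) + L)
    (c' • Pr bl (ind S') + L') (TT u' + c' • ind S')
  linarith

lemma lower_pole (hB : Big bl) (h1 : 1 ≤ δ) (h2 : δ ≤ 1 + 1 / 1000000)
    (h3 : δ ^ 2 / 2 * (1 - 1 / ((blk bl true).card : ℝ)) +
      δ ^ 2 / 2 * (1 - 1 / ((blk bl false).card : ℝ)) = (2 - δ) ^ 2)
    (h : Data bl δ I u t c S L) (h' : Data bl δ I u' t' c' S' L')
    (a : IsCap bl δ u t c S L) (b : IsCap bl δ u' t' c' S' L')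
    (hs : side t = true) (hs' : side t' = false) :
    dd u t u' t' ≤ ‖(c • Pr bl (ind S) + L) - (c' • Pr bl (ind S') + L')‖ + δ := by
  obtain ⟨a1, a2, a3, i, a4, a5, a6⟩ := a
  obtain ⟨b1, b2, b3, j, b4, b5, b6⟩ := b
  have c0 := h.code.ramp.nonneg
  have hcc : c' = c := (pow_left_inj₀ h'.code.ramp.nonneg c0 two_ne_zero).1 (b2.trans a2.symm)
  have n1 := norm_cap h.code.ball a1
  have n2 := norm_cap h'.code.ball b1
  rw [hs] at a3 a5 a6
  rw [hs'] at b3 b5 b6
  have k := pole bl hB u u' h.inH h'.inH (by linarith) (by linarith) i j a5 b5 a6 b6 c c0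
    (h.code.ramp.le.trans (by norm_num))
  rw [hcc, a3, a4, b3, b4]
  have k1 := dd_sq_le u t u' t' h.code.ball h'.code.ball
  have k2 : ‖u + u'‖ ≤ 1 := (norm_add_le _ _).trans (by linarith)
  have k3 : ‖u + u'‖ ^ 2 ≤ 1 ^ 2 := pow_le_pow_left₀ (norm_nonneg _) k2 2
  have k4 := sq_nonneg ‖u + u'‖
  have k0 := dd_nonneg u t u' t'
  rw [a2] at k
  generalize ‖u + u'‖ ^ 2 = W at *
  generalize dd u t u' t' = Q at *
  have hz := norm_nonneg ((c • Pr bl (ind {i}) + capT bl true u) -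
    (c • Pr bl (ind {j}) + capT bl false u'))
  generalize ‖(c • Pr bl (ind {i}) + capT bl true u) -
    (c • Pr bl (ind {j}) + capT bl false u')‖ = z at *
  have k5 : Q ≤ 2 - W / 4 :=
    (abs_le_of_sq_le_sq' (by nlinarith [sq_nonneg W]) (by linarith)).2
  have k6 : (2 - δ) ^ 2 - 0.4 * W ≤ z ^ 2 := by linarith
  have k7 : (2 - δ - W / 4) ^ 2 ≤ z ^ 2 := by
    nlinarith [mul_nonneg k4 (by linarith : 0 ≤ (2 - δ) / 2 - W / 16 - 0.4)]
  have k8 := (abs_le_of_sq_le_sq' k7 hz).2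
  linarith

lemma ff_lower (hB : Big bl) (h1 : 1 ≤ δ) (h2 : δ ≤ 1 + 1 / 1000000)
    (h3 : δ ^ 2 / 2 * (1 - 1 / ((blk bl true).card : ℝ)) +
      δ ^ 2 / 2 * (1 - 1 / ((blk bl false).card : ℝ)) = (2 - δ) ^ 2)
    (hI : ∀ b l y b' l' y', l < 100 → l' < 100 → ‖y‖ ≤ 1 → ‖y'‖ ≤ 1 →
      (I b l y = I b' l' y' ∧ b = b' ∧ l = l') ∨ Disjoint (I b l y) (I b' l' y'))
    (h : Data bl δ I u t c S L) (h' : Data bl δ I u' t' c' S' L') :
    dd u t u' t' ≤ ‖(c • Pr bl (ind S) + L) - (c' • Pr bl (ind S') + L')‖ + δ := by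
  have t1 := (norm_le_one_of_ball h.code.ball).2
  have t2 := (norm_le_one_of_ball h'.code.ball).2
  have t3 := abs_sub t t'
  rcases h.kind with a | ⟨a1, -, -, a4, a5⟩
  · rcases h'.kind with b | ⟨b1, -, -, -, b5⟩
    · by_cases hs : side t = side t'
      · have n1 := norm_cap h.code.ball a.1
        have n2 := norm_cap h'.code.ball b.1
        have n3 : ‖u - u'‖ ≤ 0.95 := (norm_sub_le _ _).trans (by linarith)
        have n4 : |t - t'| ≤ 0.12 := by
          rw [abs_sub_of_side t t' hs, abs_le]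
          constructor <;> linarith [a.1, b.1]
        have n5 := pow_le_pow_left₀ (norm_nonneg _) n3 2
        have n6 := pow_le_pow_left₀ (abs_nonneg _) n4 2
        rw [sq_abs] at n6
        have n7 : dd u t u' t' ≤ 1 :=
          (abs_le_of_sq_le_sq' (by rw [dd_sq]; linarith) (by norm_num)).2
        linarith [norm_nonneg ((c • Pr bl (ind S) + L) - (c' • Pr bl (ind S') + L'))]
      · cases e : side t
        · rw [dd_comm, norm_sub_rev]
          refine lower_pole hB h1 h2 h3 h' h b a ?_ e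
          rw [e] at hs
          simpa using hs
        · refine lower_pole hB h1 h2 h3 h h' a b e ?_
          rw [e] at hs
          simpa using hs
    · obtain ⟨-, -, -, i, a4, -⟩ := a
      refine lower_of_hat hB h1 h h' (lff_diff h.code h'.code ?_ (by linarith))
      rw [a4]
      exact inner_ind_single_le S' i b5
  · rcases h'.kind with b | ⟨b1, -, -, b4, b5⟩
    · obtain ⟨-, -, -, i, b4, -⟩ := b
      refine lower_of_hat hB h1 h h' (lff_diff h.code h'.code ?_ (by linarith))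
      rw [b4, real_inner_comm]
      exact inner_ind_single_le S i a5
    · rcases hI (side t) _ (TT u) (side t') _ (TT u') (floor_lt a1) (floor_lt b1)
        ((norm_TT_le u).trans (norm_le_one_of_ball h.code.ball).1)
        ((norm_TT_le u').trans (norm_le_one_of_ball h'.code.ball).1) with ⟨e1, e2, e3⟩ | e
      · rw [← a4, ← b4] at e1
        subst e1
        refine lower_of_hat hB h1 h h' (lff_same h.code h'.code ?_)
        have f1 := Nat.floor_le (by positivity : 0 ≤ 100 * |t|)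
        have f2 := Nat.lt_floor_add_one (100 * |t|)
        have f3 := Nat.floor_le (by positivity : 0 ≤ 100 * |t'|)
        have f4 := Nat.lt_floor_add_one (100 * |t'|)
        rw [e3] at f1 f2
        rw [abs_sub_of_side t t' e2, abs_le]
        constructor <;> linarith
      · rw [← a4, ← b4] at e
        refine lower_of_hat hB h1 h h' (lff_diff h.code h'.code ?_ (by linarith))
        rw [inner_ind_disjoint _ _ e]
        norm_num [eps]

lemma dd_self (a b : V ι) (x : ℝ) : dd a x b x = ‖a - b‖ := by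
  unfold dd
  rw [sub_self, zero_pow two_ne_zero, add_zero, Real.sqrt_sq (norm_nonneg _)]

lemma fg_both (hB : Big bl) (h1 : 1 ≤ δ) (h : Data bl δ I u t c S L) (w : V ι) (hw : InH bl w)
    (hw1 : ‖w‖ ≤ 1) :
    |dd (Pr bl (TT w)) (tau bl w) u t - ‖w - (c • Pr bl (ind S) + L)‖| ≤ δ := by
  have k1 := h.close hB
  have k2 := norm_Pr_TT_sub bl hB w hw hw1
  have k3 : eta / 100 ≤ 0.0001 := by norm_num [eta]
  rw [abs_le]
  constructor
  · rcases le_or_gt (sig u t) 0.48 with hs | hs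
    · rw [h.off h1 hs]
      have e : w - Pr bl (TT u) = Pr bl (w - TT u) := by rw [Pr_sub, Pr_of_InH bl w hw]
      have m1 := norm_Pr_le bl (w - TT u)
      have m2 := norm_sub_le_norm_sub_add_norm_sub w (TT (TT w)) (TT u)
      have m3 := ufg_off w hw1
      have m4 := TT_lip (TT w) u
      have m5 := norm_sub_le_norm_sub_add_norm_sub (TT w) (Pr bl (TT w)) u
      have m6 := norm_le_dd (Pr bl (TT w)) (tau bl w) u t
      rw [norm_sub_rev] at k2
      rw [e]
      linarith [cr_eta_pos]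
    · have m1 := ufg_on bl u w (ind S) t c h.code.ball hw1 (ind_nonneg S) (norm_ind S h.code.ne)
        h.code.ramp hs
      have m2 := dd_tri (TT w) (tau bl w) (Pr bl (TT w)) (tau bl w) u t
      rw [dd_self, norm_sub_rev] at m2
      have m3 := norm_sub_le_norm_sub_add_norm_sub w (TT u + c • ind S) (c • Pr bl (ind S) + L)
      rw [norm_sub_rev] at k1
      linarith
  · have m1 := lfg_point bl (side t) u t c S h.code.ball h.code.ramp h.code.ne h.sub h.code.card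
      h.code.neu (side_cases t)
    have m2 := dd_tri (Pr bl (TT w)) (tau bl w) (TT w) (tau bl w) u t
    rw [dd_self] at m2
    have m3 := dd_tri (TT w) (tau bl w) (TT (TT u + c • ind S)) (tau bl (TT u + c • ind S)) u t
    have m4 := ghat_lip bl w (TT u + c • ind S)
    have m5 := norm_sub_le_norm_sub_add_norm_sub w (c • Pr bl (ind S) + L) (TT u + c • ind S)
    linarith

end

lemma gg_both (bl : ι → Bool) (δ : ℝ) (h1 : 1 ≤ δ) (w w' : V ι) (hw : InH bl w)
    (hw' : InH bl w') :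
    |dd (Pr bl (TT w)) (tau bl w) (Pr bl (TT w')) (tau bl w') - ‖w - w'‖| ≤ δ := by
  rw [abs_le]
  constructor
  · have e : w - w' = (Pr bl (TT w) - Pr bl (TT w')) + Pr bl (PP w - PP w') := by
      rw [Pr_sub, ← add_sub_add_comm, ← Pr_add, ← Pr_add, TT_add_PP, TT_add_PP,
        Pr_of_InH bl w hw, Pr_of_InH bl w' hw']
    have m1 := norm_Pr_le bl (PP w - PP w')
    have m2 := norm_sub_sq_le_of_nonneg _ _ (PP_nonneg w) (PP_nonneg w')
    have m3 := pow_le_pow_left₀ (norm_nonneg _) (norm_PP_le w) 2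
    have m4 := pow_le_pow_left₀ (norm_nonneg _) (norm_PP_le w') 2
    have m5 : ‖PP w - PP w'‖ ≤ 1 := (abs_le_of_sq_le_sq' (by linarith) (by norm_num)).2
    have m6 := norm_add_le (Pr bl (TT w) - Pr bl (TT w')) (Pr bl (PP w - PP w'))
    have m7 := norm_le_dd (Pr bl (TT w)) (tau bl w) (Pr bl (TT w')) (tau bl w')
    rw [← e] at m6
    linarith
  · have m1 := ghat_lip bl w w'
    have m2 : dd (Pr bl (TT w)) (tau bl w) (Pr bl (TT w')) (tau bl w') ≤
        dd (TT w) (tau bl w) (TT w') (tau bl w') := by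
      refine Real.sqrt_le_sqrt ?_
      rw [← Pr_sub]
      have := pow_le_pow_left₀ (norm_nonneg _) (norm_Pr_le bl (TT w - TT w')) 2
      linarith
    linarith

theorem exists_corr (bl : ι → Bool) (hB : Big bl) (δ : ℝ) (h1 : 1 ≤ δ) (h2 : δ ≤ 1 + 1 / 1000000)
    (h3 : δ ^ 2 / 2 * (1 - 1 / ((blk bl true).card : ℝ)) +
      δ ^ 2 / 2 * (1 - 1 / ((blk bl false).card : ℝ)) = (2 - δ) ^ 2) :
    ∃ f g τ, Corr bl δ f g τ := by
  obtain ⟨I, hI1, hI2⟩ := exists_codes bl hB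
  have hd : ∀ (u : V ι) (t : ℝ), ∃ c S L, InH bl u → ‖u‖ ^ 2 + t ^ 2 ≤ 1 →
      Data bl δ I u t c S L := by
    intro u t
    by_cases hh : InH bl u ∧ ‖u‖ ^ 2 + t ^ 2 ≤ 1
    · obtain ⟨c, S, L, h⟩ := exists_data bl hB δ h1 h2 I hI1 u t hh.1 hh.2
      exact ⟨c, S, L, fun _ _ => h⟩
    · exact ⟨0, ∅, 0, fun a b => absurd ⟨a, b⟩ hh⟩
  choose c S L hd using hd
  refine ⟨fun u t => c u t • Pr bl (ind (S u t)) + L u t, fun w => Pr bl (TT w), tau bl,
    fun u t a b => ⟨(hd u t a b).inH_f, (hd u t a b).norm_f hB h1⟩, fun w a b => ⟨InH_Pr _ _, ?_⟩,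
    fun u t u' t' a b a' b' => ?_, fun u t w a b a' b' => fg_both hB h1 (hd u t a b) w a' b',
    fun w w' a _ a' _ => gg_both bl δ h1 w w' a a'⟩
  · have m1 := ghat_ball bl w
    have m2 := pow_le_pow_left₀ (norm_nonneg _) (norm_Pr_le bl (TT w)) 2
    have m3 := pow_le_pow_left₀ (norm_nonneg _) b 2
    linarith
  · have m1 := ff_upper hB h1 (hd u t a b) (hd u' t' a' b')
    have m2 := ff_lower hB h1 h2 h3 hI2 (hd u t a b) (hd u' t' a' b')
    rw [abs_le]
    constructor <;> linarith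

end Pool.Agent.Lib.MP_fcccf2_gt.CL
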